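import Mathlib

set_option autoImplicit false

namespace Pool.Agent.AutLC

universe u

theorem exists_retraction (K : Type u) [CommGroup K] (W : Subgroup K)
    (hdiv : ∀ (n : ℕ), n ≠ 0 → ∀ w : W, ∃ v : W, v ^ n = w) :
    ∃ ρ : K →* W, ∀ w : W, ρ (w : K) = w := by
  classical
  let D : DivisibleBy (Additive W) ℕ :=
    { div := fun w n => if h : n = 0 then 0 else Additive.ofMul (Classical.choose (hdiv n h (Additive.toMul w)))
      div_zero := fun w => by simp
      div_cancel := fun {n} w hn => by
        simp only [hn, dite_false]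
        exact Classical.choose_spec (hdiv n hn (Additive.toMul w)) }
  let D' : DivisibleBy (Additive W) ℤ := AddGroup.divisibleByIntOfDivisibleByNat (Additive W)
  have hB : Module.Baer ℤ (Additive W) := Module.Baer.of_divisible (Additive W)
  have hI : Module.Injective ℤ (Additive W) := hB.injective
  let f : Additive W →+ Additive K := MonoidHom.toAdditive W.subtype
  obtain ⟨h, hh⟩ := hI.out f.toIntLinearMap (fun a b hab => Subtype.ext hab) LinearMap.id
  refine ⟨AddMonoidHom.toMultiplicative h.toAddMonoidHom, ?_⟩
  intro w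
  exact hh (Additive.ofMul w)

theorem exists_functional (K : Type u) [CommGroup K] (h5 : ∀ x : K, x ^ 5 = 1) (s : K)
    (hs : s ≠ 1) : ∃ f : K → ZMod 5, (∀ a b, f (a * b) = f a + f b) ∧ f s = 1 := by
  have : Fact (Nat.Prime 5) := ⟨by norm_num⟩
  let inst : Module (ZMod 5) (Additive K) := AddCommGroup.zmodModule (fun x => h5 (Additive.toMul x))
  have hs' : (Additive.ofMul s) ≠ 0 := hs
  obtain ⟨g, hg⟩ := Module.Projective.exists_dual_eq_one (ZMod 5) hs'
  exact ⟨fun x => g (Additive.ofMul x), fun a b => map_add g (Additive.ofMul a) (Additive.ofMul b), hg⟩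

end Pool.Agent.AutLC
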