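import Pool.Agent.AutLC.Defs

set_option autoImplicit false

namespace Pool.Agent.AutLC

universe u

section pw

variable {H : Type u} [Group H]

/-- powers with exponent in `ZMod 5` -/
def pw (u : H) (i : ZMod 5) : H := u ^ i.val

theorem pw_natCast {u : H} (hu : u ^ 5 = 1) (n : ℕ) : pw u (n : ZMod 5) = u ^ n := by
  rw [pw, ZMod.val_natCast]
  exact (pow_eq_pow_mod n hu).symm

theorem pw_zero (u : H) : pw u 0 = 1 := by simp [pw]

theorem pw_one (u : H) : pw u 1 = u := by
  have : (1 : ZMod 5).val = 1 := by decide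
  simp [pw, this]

theorem pw_add {u : H} (hu : u ^ 5 = 1) (i j : ZMod 5) : pw u (i + j) = pw u i * pw u j := by
  rw [pw, ZMod.val_add, ← pow_eq_pow_mod _ hu, pow_add]
  rfl

theorem pw_neg {u : H} (hu : u ^ 5 = 1) (i : ZMod 5) : pw u (-i) = (pw u i)⁻¹ := by
  apply eq_inv_of_mul_eq_one_left
  rw [← pw_add hu]
  simp [pw_zero]

theorem pw_pow {u : H} (hu : u ^ 5 = 1) (i : ZMod 5) (n : ℕ) : pw u i ^ n = pw u (n * i) := by
  rw [pw, ← pow_mul, mul_comm, ← pw_natCast hu]
  simp

theorem pw_pow_five {u : H} (hu : u ^ 5 = 1) (i : ZMod 5) : pw u i ^ 5 = 1 := by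
  rw [pw_pow hu]
  have : ((5 : ℕ) : ZMod 5) = 0 := by decide
  rw [this]
  simp [pw_zero]

theorem pw_pw {u : H} (hu : u ^ 5 = 1) (i j : ZMod 5) : pw (pw u i) j = pw u (j * i) := by
  rw [pw, pw_pow hu]
  simp

theorem map_pw {K : Type*} [Group K] (f : H →* K) (u : H) (i : ZMod 5) :
    f (pw u i) = pw (f u) i := by simp [pw]

theorem pw_injective {u : H} (hu : u ^ 5 = 1) (h1 : u ≠ 1) {i j : ZMod 5} (h : pw u i = pw u j) :
    i = j := by
  have h2 : pw u (i - j) = 1 := by
    rw [sub_eq_add_neg, pw_add hu, pw_neg hu, h, mul_inv_cancel]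
  by_contra hne
  have hne' : i - j ≠ 0 := sub_ne_zero.mpr hne
  have : Fact (Nat.Prime 5) := ⟨by norm_num⟩
  apply h1
  have h3 : pw (pw u (i - j)) (i - j)⁻¹ = u := by
    rw [pw_pw hu, inv_mul_cancel₀ hne', pw_one]
  rw [← h3, h2]
  simp [pw]

theorem pw_comm {s : H} (hs : ∀ g, s * g = g * s) (i : ZMod 5) (g : H) :
    pw s i * g = g * pw s i := by
  have : Commute s g := hs g
  exact (this.pow_left _)

theorem eq_one_of_sq {s : H} (h5 : s ^ 5 = 1) (h2 : s * s = 1) : s = 1 := by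
  have : s ^ 5 = (s * s) * (s * s) * s := by
    simp only [pow_succ, pow_zero, one_mul, mul_assoc]
  rw [h5, h2] at this
  simpa using this.symm

end pw

section

variable {H : Type u} [Group H] (Φ : MulAut H ≃* A)

/-- the map to `A` given by inner automorphisms -/
def inn : H →* A := Φ.toMonoidHom.comp MulAut.conj

theorem inn_apply (h : H) : inn Φ h = Φ (MulAut.conj h) := rfl

theorem inn_eq_one {h : H} (h1 : inn Φ h = 1) (g : H) : h * g = g * h := by
  rw [inn_apply] at h1
  have h2 : MulAut.conj h = 1 := by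
    apply Φ.injective
    rw [h1, map_one]
  have h3 := congrArg (fun f => f g) h2
  simp [MulAut.conj_apply] at h3
  exact mul_inv_eq_iff_eq_mul.mp h3

theorem inn_eq_one_of_central {h : H} (h1 : ∀ g, h * g = g * h) : inn Φ h = 1 := by
  rw [inn_apply]
  have : MulAut.conj h = 1 := by
    ext g
    simp [MulAut.conj_apply, h1]
  rw [this, map_one]

theorem conj_aut (α : MulAut H) (h : H) : α * MulAut.conj h * α⁻¹ = MulAut.conj (α h) := by
  ext g
  simp [MulAut.conj_apply]

theorem inn_aut (α : MulAut H) (h : H) : Φ α * inn Φ h * (Φ α)⁻¹ = inn Φ (α h) := by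
  rw [inn_apply, inn_apply, ← conj_aut, map_mul, map_mul, map_inv]

theorem range_normal : (inn Φ).range.Normal := by
  constructor
  rintro _ ⟨h, rfl⟩ a
  refine ⟨Φ.symm a h, ?_⟩
  rw [← inn_aut]
  simp

include Φ in
theorem aut_pow_110 (α : MulAut H) : α ^ 110 = 1 := by
  apply Φ.injective
  rw [map_pow, A.pow_110, map_one]

include Φ in
theorem GL1 (θ : MulAut H) (s : H) (hs : s ^ 5 = 1) (hs1 : s ≠ 1) (h : θ s = s ^ 2) : False := by
  have key : ∀ n : ℕ, (θ ^ n) s = s ^ (2 ^ n) := by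
    intro n
    induction n with
    | zero => simp
    | succ n ih =>
      rw [pow_succ', MulAut.mul_apply, ih, map_pow, h, ← pow_mul]
      congr 1
      ring
  have h1 := key 110
  rw [aut_pow_110 Φ θ] at h1
  simp only [MulAut.one_apply] at h1
  have h2 : s ^ (2 ^ 110) = s ^ 4 := by
    have h0 : 2 ^ 110 % 5 = 4 := by norm_num
    rw [pow_eq_pow_mod _ hs, h0]
  rw [h2] at h1
  have h3 : s ^ 3 = 1 := by
    have : s ^ 4 = s ^ 3 * s := pow_succ s 3
    rw [this] at h1
    exact mul_eq_right.mp h1.symm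
  apply hs1
  have h4 : s ^ 6 = 1 := by
    have : s ^ 6 = (s ^ 3) ^ 2 := by rw [← pow_mul]
    rw [this, h3]; simp
  have h5 : s ^ 6 = s ^ 5 * s := pow_succ s 5
  rw [h5, hs] at h4
  simpa using h4

include Φ in
theorem GL2 (θ : H →* H) (s : H) (hs : s ^ 5 = 1) (hs1 : s ≠ 1) (h : θ s = s ^ 2)
    (hθ : ∀ g, ∃ i : ZMod 5, θ g = g * pw s i) : False := by
  have hpw : ∀ i, θ (pw s i) = pw s (2 * i) := by
    intro i
    rw [map_pw, h]
    have : s ^ 2 = pw s 2 := by
      have := pw_natCast hs 2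
      simpa using this.symm
    rw [this, pw_pw hs]
    congr 1
    ring
  have hinj : Function.Injective θ := by
    rw [injective_iff_map_eq_one]
    intro g hg
    obtain ⟨i, hi⟩ := hθ g
    rw [hg] at hi
    have h1 : g = pw s (-i) := by
      rw [pw_neg hs]
      exact eq_inv_of_mul_eq_one_left hi.symm
    have h2 : θ g = pw s (2 * (-i)) := by rw [h1, hpw]
    rw [hg] at h2
    have h3 : (0 : ZMod 5) = 2 * (-i) := by
      apply pw_injective hs hs1
      rw [pw_zero]
      exact h2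
    have h4 : ∀ i : ZMod 5, 0 = 2 * (-i) → i = 0 := by decide
    rw [h1, h4 i h3]
    simp [pw_zero]
  have hsurj : Function.Surjective θ := by
    intro g
    obtain ⟨i, hi⟩ := hθ g
    refine ⟨g * pw s (2 * i), ?_⟩
    rw [map_mul, hi, hpw, mul_assoc, ← pw_add hs]
    have : ∀ i : ZMod 5, i + 2 * (2 * i) = 0 := by decide
    rw [this, pw_zero, mul_one]
  exact GL1 Φ (MulEquiv.ofBijective θ ⟨hinj, hsurj⟩) s hs hs1 h

end

end Pool.Agent.AutLC
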