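import Pool.Agent.AutLC.Basic

set_option autoImplicit false

namespace Pool.Agent.AutLC

universe u

variable {H : Type u} [Group H] (Φ : MulAut H ≃* A)

/-- if `y x y⁻¹ = x⁻¹` modulo the center, with `x` acting as `bt`. -/
theorem case1a (x y : H) (hx : inn Φ x = bt) (hy : inn Φ y * bt * (inn Φ y)⁻¹ = bt⁻¹) :
    False := by
  -- z
  have hz0 : inn Φ (x * (y * x * y⁻¹)) = 1 := by
    simp only [map_mul, map_inv, hx, hy, mul_inv_cancel]
  obtain ⟨z, hz⟩ : ∃ z, z = x * (y * x * y⁻¹) := ⟨_, rfl⟩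
  rw [← hz] at hz0
  have hzc : ∀ g, z * g = g * z := inn_eq_one Φ hz0
  have hyx : y * x * y⁻¹ = x⁻¹ * z := by rw [hz]; group
  have hx5 : ∀ g, x ^ 5 * g = g * x ^ 5 := by
    apply inn_eq_one Φ
    rw [map_pow, hx, bt_pow_five]
  obtain ⟨u, hu⟩ : ∃ u, u = (x⁻¹) ^ 2 * z := ⟨_, rfl⟩
  have hxz : Commute x⁻¹ z := (hzc x⁻¹).symm
  have h1 : (x⁻¹ * z) ^ 5 = x ^ 5 := by
    rw [← hyx, conj_pow, ← hx5 y, mul_inv_cancel_right]
  have hu5 : u ^ 5 = 1 := by
    have h2 : u = x⁻¹ * (x⁻¹ * z) := by rw [hu, pow_two, mul_assoc]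
    have h3 : Commute x⁻¹ (x⁻¹ * z) := (Commute.refl _).mul_right hxz
    rw [h2, h3.mul_pow, h1, inv_pow, inv_mul_cancel]
  have hinnu : inn Φ u = bt ^ 3 := by
    rw [hu, map_mul, hz0, map_pow, map_inv, hx, mul_one]
    have : bt ^ 5 = 1 := bt_pow_five
    have h4 : bt ^ 5 = bt ^ 3 * bt ^ 2 := by rw [← pow_add]
    rw [h4] at this
    rw [inv_pow]
    exact (eq_inv_of_mul_eq_one_left this).symm
  have hu1 : u ≠ 1 := by
    intro h
    rw [h, map_one] at hinnu
    have h5 : (bt ^ 3).2 = 1 := by rw [← hinnu]; rfl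
    rw [bt_pow] at h5
    exact absurd h5 (by decide)
  have hyu : y * u * y⁻¹ = u⁻¹ := by
    have h6 : y * x⁻¹ * y⁻¹ = z⁻¹ * x := by
      have := congrArg (fun g => g⁻¹) hyx
      simp only [mul_inv_rev, inv_inv] at this
      rw [← this]; group
    have h7 : y * u * y⁻¹ = (y * x⁻¹ * y⁻¹) * (y * x⁻¹ * y⁻¹) * (y * z * y⁻¹) := by
      rw [hu, pow_two]; group
    have h8 : y * z * y⁻¹ = z := by rw [← hzc, mul_inv_cancel_right]
    rw [h7, h6, h8, hu]
    have h9 : Commute z⁻¹ x := by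
      have : Commute z x := hzc x
      exact this.inv_left
    have h10 : z⁻¹ * x * (z⁻¹ * x) * z = z⁻¹ * x * (x * z⁻¹) * z :=
      congrArg (fun t => z⁻¹ * x * t * z) h9.eq
    rw [h10, inv_pow, mul_inv_rev, inv_inv, pow_two]
    simp only [mul_assoc, inv_mul_cancel, mul_one]
  -- elements whose image commutes with `bt` commute with `u`
  have hC : ∀ c : H, inn Φ c * bt * (inn Φ c)⁻¹ = bt → c * u * c⁻¹ = u := by
    intro c hc
    obtain ⟨w, hw⟩ : ∃ w, w = c * u * c⁻¹ * u⁻¹ := ⟨_, rfl⟩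
    have hcu : c * u * c⁻¹ = w * u := by rw [hw]; group
    have hw0 : inn Φ w = 1 := by
      rw [hw]
      simp only [map_mul, map_inv, hinnu]
      have : inn Φ c * bt ^ 3 * (inn Φ c)⁻¹ = bt ^ 3 := by rw [← conj_pow, hc]
      rw [this, mul_inv_cancel]
    have hwc : ∀ g, w * g = g * w := inn_eq_one Φ hw0
    have hwu : Commute w u := hwc u
    have hw5 : w ^ 5 = 1 := by
      have h2 : (w * u) ^ 5 = 1 := by rw [← hcu, conj_pow, hu5]; group
      rw [hwu.mul_pow, hu5, mul_one] at h2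
      exact h2
    -- conjugate of c by y
    obtain ⟨d, hd⟩ : ∃ d, d = y * c * y⁻¹ := ⟨_, rfl⟩
    have hdu : d * u * d⁻¹ = w⁻¹ * u := by
      have h3 : d * u * d⁻¹ = y * (c * (y⁻¹ * u * y) * c⁻¹) * y⁻¹ := by rw [hd]; group
      have h4 : y⁻¹ * u * y = u⁻¹ := by
        have := congrArg (fun g => y⁻¹ * g⁻¹ * y) hyu
        simp only [mul_inv_rev, inv_inv] at this
        rw [← this]; group
      rw [h3, h4]
      have h5 : c * u⁻¹ * c⁻¹ = u⁻¹ * w⁻¹ := by
        have := congrArg (fun g => g⁻¹) hcu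
        simp only [mul_inv_rev, inv_inv] at this
        rw [← this]; group
      rw [h5]
      have h6 : y * (u⁻¹ * w⁻¹) * y⁻¹ = (y * u * y⁻¹)⁻¹ * (y * w * y⁻¹)⁻¹ := by group
      rw [h6, hyu, ← hwc y]
      rw [inv_inv, mul_inv_cancel_right]
      have : Commute u w⁻¹ := hwu.symm.inv_right
      exact this.eq
    obtain ⟨e, he⟩ : ∃ e, e = d * c⁻¹ := ⟨_, rfl⟩
    have heu : e * u * e⁻¹ = w⁻¹ ^ 2 * u := by
      have h7 : c⁻¹ * u * c = w⁻¹ * u := by
        have h8 : u = c⁻¹ * (w * u) * c := by rw [← hcu]; group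
        have h9 : c⁻¹ * (w * u) * c = w * (c⁻¹ * u * c) := by
          have : c⁻¹ * (w * u) * c = (c⁻¹ * w) * (u * c) := by group
          rw [this, ← hwc]; group
        rw [h9] at h8
        rw [eq_inv_mul_iff_mul_eq]
        exact h8.symm
      have h10 : e * u * e⁻¹ = d * (c⁻¹ * u * c) * d⁻¹ := by rw [he]; group
      have h11 : d * (w⁻¹ * u) * d⁻¹ = w⁻¹ * (d * u * d⁻¹) := by
        have h12 : Commute w⁻¹ d := by
          have : Commute w d := hwc d
          exact this.inv_left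
        have : d * (w⁻¹ * u) * d⁻¹ = (d * w⁻¹) * (u * d⁻¹) := by group
        rw [this, ← h12.eq]; group
      rw [h10, h7, h11, hdu, pow_two]; group
    have hepow : ∀ n : ℕ, e ^ n * u * (e ^ n)⁻¹ = w⁻¹ ^ (2 * n) * u := by
      intro n
      induction n with
      | zero => simp
      | succ n ih =>
        have h12 : Commute e (w⁻¹ ^ (2 * n)) := by
          have : Commute w e := hwc e
          exact (this.inv_left.pow_left _).symm
        have : e ^ (n + 1) * u * (e ^ (n + 1))⁻¹ = e * (e ^ n * u * (e ^ n)⁻¹) * e⁻¹ := by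
          rw [pow_succ']; group
        rw [this, ih]
        have h13 : e * (w⁻¹ ^ (2 * n) * u) * e⁻¹ = (e * w⁻¹ ^ (2 * n)) * (u * e⁻¹) := by group
        rw [h13, h12.eq]
        have h14 : w⁻¹ ^ (2 * n) * e * (u * e⁻¹) = w⁻¹ ^ (2 * n) * (e * u * e⁻¹) := by group
        rw [h14, heu, ← mul_assoc, ← pow_add]
        ring_nf
    -- e^11 commutes with u
    have he11 : e ^ 11 * u = u * e ^ 11 := by
      obtain ⟨j, hj⟩ := comm_pow_eleven (inn Φ y) (inn Φ c)
      have h15 : inn Φ (e ^ 11) = bt ^ j := by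
        rw [map_pow, ← hj, he, hd]
        simp only [map_mul, map_inv]
      have h16 : inn Φ (e ^ 11 * (u ^ (2 * j))⁻¹) = 1 := by
        rw [map_mul, h15, map_inv, map_pow, hinnu, ← pow_mul]
        have : 3 * (2 * j) = j + 5 * j := by ring
        rw [this, pow_add, pow_mul, bt_pow_five, one_pow, mul_one, mul_inv_cancel]
      have h17 := inn_eq_one Φ h16 u
      have h18 : Commute (e ^ 11 * (u ^ (2 * j))⁻¹) u := h17
      have h19 : Commute (u ^ (2 * j)) u := (Commute.refl u).pow_left _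
      have h20 := h18.mul_left h19
      rw [inv_mul_cancel_right] at h20
      exact h20.eq
    have hw22 : w⁻¹ ^ 22 = 1 := by
      have := hepow 11
      rw [he11, mul_inv_cancel_right] at this
      exact mul_eq_right.mp this.symm
    have hw1 : w = 1 := by
      have h21 : w⁻¹ ^ 22 = ((w ^ 5)⁻¹) ^ 4 * (w⁻¹ * w⁻¹) := by
        rw [← inv_pow, ← pow_mul, ← pow_two, ← pow_add]
      rw [hw5, inv_one, one_pow, one_mul, hw22] at h21
      apply eq_one_of_sq hw5
      have := congrArg (fun g => g⁻¹) h21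
      simpa using this.symm
    rw [hcu, hw1, one_mul]
  have hsign : ∀ h : H, h⁻¹ * u * h = pw u (eps (inn Φ h).2) := by
    intro h
    rcases conj_bt (inn Φ h) with ⟨h1, h2⟩ | ⟨h1, h2⟩
    · rw [h1, pw_one]
      have := hC h h2
      have h3 : h * u = u * h := mul_inv_eq_iff_eq_mul.mp this
      rw [mul_assoc, ← h3]; group
    · rw [h1, pw_neg hu5, pw_one]
      have h4 : inn Φ (y⁻¹ * h) * bt * (inn Φ (y⁻¹ * h))⁻¹ = bt := by
        have : inn Φ (y⁻¹ * h) * bt * (inn Φ (y⁻¹ * h))⁻¹ =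
          (inn Φ y)⁻¹ * (inn Φ h * bt * (inn Φ h)⁻¹) * inn Φ y := by
          rw [map_mul, map_inv]; group
        rw [this, h2, ← hy]; group
      have h5 := hC _ h4
      have h6 : h * u * h⁻¹ = y * ((y⁻¹ * h) * u * (y⁻¹ * h)⁻¹) * y⁻¹ := by group
      rw [h5, hyu] at h6
      have h7 : h * u⁻¹ * h⁻¹ = u := by
        have := congrArg (fun g => g⁻¹) h6
        simp only [mul_inv_rev, inv_inv] at this
        rw [mul_assoc]
        exact this
      nth_rewrite 1 [← h7]
      group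
  -- the order four automorphism
  let θ : H →* H := MonoidHom.mk' (fun h => h * pw u (2 * ii (inn Φ h).2)) (by
    intro a b
    have h1 : ii (inn Φ (a * b)).2 = eps (inn Φ b).2 * ii (inn Φ a).2 + ii (inn Φ b).2 := by
      rw [map_mul]; exact ii_mul _ _
    rw [h1, mul_add, pw_add hu5]
    have h2 : ∀ i : ZMod 5, b⁻¹ * pw u i * b = pw u (eps (inn Φ b).2 * i) := by
      intro i
      have h3 : b⁻¹ * pw u i * b = pw (b⁻¹ * u * b) i := by
        have := map_pw (MulAut.conj b⁻¹).toMonoidHom u i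
        simpa using this
      rw [h3, hsign, pw_pw hu5, mul_comm]
    have h4 : pw u (2 * ii (inn Φ a).2) * b = b * pw u (eps (inn Φ b).2 * (2 * ii (inn Φ a).2)) := by
      rw [← h2]; group
    calc a * b * (pw u (2 * (eps (inn Φ b).2 * ii (inn Φ a).2)) * pw u (2 * ii (inn Φ b).2))
        = a * (b * pw u (eps (inn Φ b).2 * (2 * ii (inn Φ a).2))) * pw u (2 * ii (inn Φ b).2) := by
          rw [show 2 * (eps (inn Φ b).2 * ii (inn Φ a).2) = eps (inn Φ b).2 * (2 * ii (inn Φ a).2)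
            by ring]
          group
      _ = a * (pw u (2 * ii (inn Φ a).2) * b) * pw u (2 * ii (inn Φ b).2) := by rw [h4]
      _ = _ := by group)
  apply GL2 Φ θ u hu5 hu1
  · show u * pw u (2 * ii (inn Φ u).2) = u ^ 2
    have h1 : ii (inn Φ u).2 = 3 := by
      rw [hinnu, bt_pow]; rfl
    rw [h1]
    have h2 : (2 * 3 : ZMod 5) = 1 := by decide
    rw [h2, pw_one, pow_two]
  · intro g
    exact ⟨_, rfl⟩

end Pool.Agent.AutLC
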