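import Pool.Agent.AutLC.Central
import Pool.Agent.AutLC.Abel

set_option autoImplicit false

namespace Pool.Agent.AutLC

universe u

open scoped IsMulCommutative

section center

variable {H : Type u} [Group H]

/-- the center, additively -/
abbrev M (H : Type u) [Group H] := Additive (Subgroup.center H)

def co (m : M H) : H := ((Additive.toMul m : Subgroup.center H) : H)

theorem co_add (a b : M H) : co (a + b) = co a * co b := rfl
theorem co_zero : co (0 : M H) = 1 := rfl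
theorem co_neg (a : M H) : co (-a) = (co a)⁻¹ := rfl
theorem co_inj {a b : M H} (h : co a = co b) : a = b := Subtype.ext h
theorem co_comm (m : M H) (g : H) : co m * g = g * co m :=
  (Subgroup.mem_center_iff.mp (Additive.toMul m : Subgroup.center H).2 g).symm
theorem co_nsmul (n : ℕ) (m : M H) : co (n • m) = co m ^ n := rfl

end center

section

variable {H : Type u} [Group H] (Φ : MulAut H ≃* A)

theorem mem_center_of_inn {g : H} (h : inn Φ g = 1) : g ∈ Subgroup.center H :=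
  Subgroup.mem_center_iff.mpr fun k => (inn_eq_one Φ h k).symm

theorem pow_spec (β : MulAut H) (hβ : ∀ g, inn Φ (β g) = inn Φ g) (i : ℕ) (g : H) :
    inn Φ ((β ^ i) g) = inn Φ g := by
  induction i with
  | zero => simp
  | succ i ih => rw [pow_succ', MulAut.mul_apply, hβ, ih]

/-- the central cocycle of a central automorphism -/
def cc (β : MulAut H) (hβ : ∀ g, inn Φ (β g) = inn Φ g) (i : ℕ) (g : H) : M H :=
  Additive.ofMul ⟨g⁻¹ * (β ^ i) g, mem_center_of_inn Φ (by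
    rw [map_mul, map_inv, pow_spec Φ β hβ, inv_mul_cancel])⟩

variable (β : MulAut H) (hβ : ∀ g, inn Φ (β g) = inn Φ g)

theorem co_cc (i : ℕ) (g : H) : co (cc Φ β hβ i g) = g⁻¹ * (β ^ i) g := rfl

theorem cc_spec (i : ℕ) (g : H) : (β ^ i) g = g * co (cc Φ β hβ i g) := by
  rw [co_cc]; group

theorem cc_mul (i : ℕ) (a b : H) : cc Φ β hβ i (a * b) = cc Φ β hβ i a + cc Φ β hβ i b := by
  apply co_inj
  rw [co_add, co_cc, map_mul, cc_spec Φ β hβ i a, cc_spec Φ β hβ i b]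
  have h := co_comm (cc Φ β hβ i a) b
  have : (a * b)⁻¹ * (a * co (cc Φ β hβ i a) * (b * co (cc Φ β hβ i b))) =
    b⁻¹ * (co (cc Φ β hβ i a) * b) * co (cc Φ β hβ i b) := by group
  rw [this, h]
  group

theorem cc_zero (g : H) : cc Φ β hβ 0 g = 0 := by
  apply co_inj
  rw [co_cc, co_zero]
  simp

theorem cc_one_elt (i : ℕ) : cc Φ β hβ i 1 = 0 := by
  apply co_inj
  rw [co_cc, co_zero]
  simp

theorem cc_add_five (h5 : β ^ 5 = 1) (i : ℕ) (g : H) : cc Φ β hβ (i + 5) g = cc Φ β hβ i g := by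
  apply co_inj
  rw [co_cc, co_cc, pow_add, h5, mul_one]

theorem cc_cc (i j : ℕ) (g : H) : cc Φ β hβ i (co (cc Φ β hβ j g)) =
    cc Φ β hβ (i + j) g - cc Φ β hβ i g - cc Φ β hβ j g := by
  have h1 : (β ^ (i + j)) g = (β ^ i) ((β ^ j) g) := by rw [pow_add, MulAut.mul_apply]
  have h2 : (β ^ j) g = g * co (cc Φ β hβ j g) := cc_spec Φ β hβ j g
  have h3 : cc Φ β hβ (i + j) g = cc Φ β hβ i (co (cc Φ β hβ j g)) + cc Φ β hβ i g + cc Φ β hβ j g := by
    apply co_inj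
    rw [co_add, co_add]
    rw [co_cc Φ β hβ (i + j), h1, h2, map_mul, cc_spec Φ β hβ i g,
      cc_spec Φ β hβ i (co (cc Φ β hβ j g))]
    have h4 := co_comm (cc Φ β hβ j g) (co (cc Φ β hβ i (co (cc Φ β hβ j g))))
    have h5 := co_comm (cc Φ β hβ i g) (co (cc Φ β hβ j g) * co (cc Φ β hβ i (co (cc Φ β hβ j g))))
    have h6 := co_comm (cc Φ β hβ i g) (co (cc Φ β hβ j g))
    calc g⁻¹ * (g * co (cc Φ β hβ i g) * (co (cc Φ β hβ j g) * co (cc Φ β hβ i (co (cc Φ β hβ j g)))))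
        = co (cc Φ β hβ i g) * (co (cc Φ β hβ j g) * co (cc Φ β hβ i (co (cc Φ β hβ j g)))) := by
          group
      _ = (co (cc Φ β hβ j g) * co (cc Φ β hβ i (co (cc Φ β hβ j g)))) * co (cc Φ β hβ i g) := h5
      _ = (co (cc Φ β hβ i (co (cc Φ β hβ j g))) * co (cc Φ β hβ j g)) * co (cc Φ β hβ i g) := by
          rw [h4]
      _ = co (cc Φ β hβ i (co (cc Φ β hβ j g))) * (co (cc Φ β hβ i g) * co (cc Φ β hβ j g)) := by
          rw [mul_assoc, h6]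
      _ = _ := by group
  rw [h3]
  abel

theorem cc_co_add (i : ℕ) (a b : M H) : cc Φ β hβ i (co (a + b)) =
    cc Φ β hβ i (co a) + cc Φ β hβ i (co b) := by
  rw [co_add, cc_mul]

theorem cc_beta (i : ℕ) (g : H) : cc Φ β hβ i (β g) = cc Φ β hβ (i + 1) g - cc Φ β hβ 1 g := by
  have h1 : β g = g * co (cc Φ β hβ 1 g) := by
    have := cc_spec Φ β hβ 1 g
    rwa [pow_one] at this
  rw [h1, cc_mul, cc_cc]
  abel

/-- the automorphism `β + β⁻¹ - 1` -/
def unitU (h5 : β ^ 5 = 1) : MulAut H where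
  toFun g := g * co (cc Φ β hβ 1 g + cc Φ β hβ 4 g)
  invFun g := g * co (cc Φ β hβ 2 g + cc Φ β hβ 3 g)
  left_inv g := by
    show g * co (cc Φ β hβ 1 g + cc Φ β hβ 4 g) * co (cc Φ β hβ 2 (g * co (cc Φ β hβ 1 g + cc Φ β hβ 4 g)) +
      cc Φ β hβ 3 (g * co (cc Φ β hβ 1 g + cc Φ β hβ 4 g))) = g
    rw [cc_mul, cc_mul, cc_co_add, cc_co_add, cc_cc, cc_cc, cc_cc, cc_cc, mul_assoc, ← co_add]
    have h6 : cc Φ β hβ (2 + 4) g = cc Φ β hβ 1 g := cc_add_five Φ β hβ h5 1 g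
    have h7 : cc Φ β hβ (3 + 4) g = cc Φ β hβ 2 g := cc_add_five Φ β hβ h5 2 g
    rw [h6, h7]
    have : cc Φ β hβ 1 g + cc Φ β hβ 4 g + (cc Φ β hβ 2 g + (cc Φ β hβ (2 + 1) g - cc Φ β hβ 2 g -
      cc Φ β hβ 1 g + (cc Φ β hβ 1 g - cc Φ β hβ 2 g - cc Φ β hβ 4 g)) + (cc Φ β hβ 3 g +
      (cc Φ β hβ (3 + 1) g - cc Φ β hβ 3 g - cc Φ β hβ 1 g + (cc Φ β hβ 2 g - cc Φ β hβ 3 g -
      cc Φ β hβ 4 g)))) = 0 := by
      norm_num
      abel
    rw [this, co_zero, mul_one]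
  right_inv g := by
    show g * co (cc Φ β hβ 2 g + cc Φ β hβ 3 g) * co (cc Φ β hβ 1 (g * co (cc Φ β hβ 2 g + cc Φ β hβ 3 g)) +
      cc Φ β hβ 4 (g * co (cc Φ β hβ 2 g + cc Φ β hβ 3 g))) = g
    rw [cc_mul, cc_mul, cc_co_add, cc_co_add, cc_cc, cc_cc, cc_cc, cc_cc, mul_assoc, ← co_add]
    have h6 : cc Φ β hβ (4 + 2) g = cc Φ β hβ 1 g := cc_add_five Φ β hβ h5 1 g
    have h7 : cc Φ β hβ (4 + 3) g = cc Φ β hβ 2 g := cc_add_five Φ β hβ h5 2 g
    rw [h6, h7]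
    have : cc Φ β hβ 2 g + cc Φ β hβ 3 g + (cc Φ β hβ 1 g + (cc Φ β hβ (1 + 2) g - cc Φ β hβ 1 g -
      cc Φ β hβ 2 g + (cc Φ β hβ (1 + 3) g - cc Φ β hβ 1 g - cc Φ β hβ 3 g)) + (cc Φ β hβ 4 g +
      (cc Φ β hβ 1 g - cc Φ β hβ 4 g - cc Φ β hβ 2 g + (cc Φ β hβ 2 g - cc Φ β hβ 4 g -
      cc Φ β hβ 3 g)))) = 0 := by
      norm_num
      abel
    rw [this, co_zero, mul_one]
  map_mul' a b := by
    rw [cc_mul, cc_mul]
    have h1 : cc Φ β hβ 1 a + cc Φ β hβ 1 b + (cc Φ β hβ 4 a + cc Φ β hβ 4 b) =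
      (cc Φ β hβ 1 a + cc Φ β hβ 4 a) + (cc Φ β hβ 1 b + cc Φ β hβ 4 b) := by abel
    rw [h1, co_add (cc Φ β hβ 1 a + cc Φ β hβ 4 a)]
    have h2 := co_comm (cc Φ β hβ 1 a + cc Φ β hβ 4 a) b
    calc a * b * (co (cc Φ β hβ 1 a + cc Φ β hβ 4 a) * co (cc Φ β hβ 1 b + cc Φ β hβ 4 b))
        = a * (b * co (cc Φ β hβ 1 a + cc Φ β hβ 4 a)) * co (cc Φ β hβ 1 b + cc Φ β hβ 4 b) := by
          group
      _ = a * (co (cc Φ β hβ 1 a + cc Φ β hβ 4 a) * b) * co (cc Φ β hβ 1 b + cc Φ β hβ 4 b) := by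
          rw [h2]
      _ = _ := by group

theorem unitU_apply (h5 : β ^ 5 = 1) (g : H) : unitU Φ β hβ h5 g =
    g * co (cc Φ β hβ 1 g + cc Φ β hβ 4 g) := rfl

theorem unitU_comm (h5 : β ^ 5 = 1) (b : MulAut H) (hb : b * β = β * b) :
    unitU Φ β hβ h5 * b = b * unitU Φ β hβ h5 := by
  have hb' : ∀ i : ℕ, ∀ g, b ((β ^ i) g) = (β ^ i) (b g) := by
    intro i g
    have h1 : Commute b (β ^ i) := Commute.pow_right hb i
    have h2 := congrArg (fun f => f g) h1.eq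
    simpa [MulAut.mul_apply] using h2
  ext g
  rw [MulAut.mul_apply, MulAut.mul_apply, unitU_apply, unitU_apply, co_add, co_add, co_cc, co_cc,
    co_cc, co_cc]
  simp only [map_mul, map_inv, hb']

/-- the conclusion of the unit argument -/
theorem unit_concl (hβ1 : Φ β = bt) :
    (∀ g, (5 : ℕ) • cc Φ β hβ 1 g = 0) ∧ (∀ j : ℕ, ∀ g, cc Φ β hβ j g = j • cc Φ β hβ 1 g) ∧
      ∃ g, cc Φ β hβ 1 g ≠ 0 := by
  have h5 : β ^ 5 = 1 := by
    apply Φ.injective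
    rw [map_pow, hβ1, bt_pow_five, map_one]
  have hex : ∃ g, cc Φ β hβ 1 g ≠ 0 := by
    by_contra hcon
    push Not at hcon
    have : β = 1 := by
      ext g
      have h1 := cc_spec Φ β hβ 1 g
      rw [pow_one, hcon, co_zero, mul_one] at h1
      simpa using h1
    rw [this, map_one] at hβ1
    exact bt_ne_one hβ1.symm
  have h4ne : ¬ ∀ g, cc Φ β hβ 4 g = 0 := by
    intro h
    obtain ⟨g, hg⟩ := hex
    apply hg
    have h1 := h (β g)
    rw [cc_beta] at h1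
    have h2 : cc Φ β hβ (4 + 1) g = 0 := by
      have := cc_add_five Φ β hβ h5 0 g
      rw [cc_zero] at this
      simpa using this
    rw [h2] at h1
    simpa using h1
  have hU : ∃ j : ℕ, j < 5 ∧ unitU Φ β hβ h5 = β ^ j := by
    obtain ⟨j, hj, h⟩ := mem_of_bicentral (Φ (unitU Φ β hβ h5)) (by
      intro c hc
      have h1 : Φ.symm c * β = β * Φ.symm c := by
        apply Φ.injective
        rw [map_mul, map_mul, hβ1, Φ.apply_symm_apply, hc]
      have h2 := unitU_comm Φ β hβ h5 _ h1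
      have h3 := congrArg Φ h2
      rw [map_mul, map_mul, Φ.apply_symm_apply] at h3
      exact h3)
    refine ⟨j, hj, ?_⟩
    apply Φ.injective
    rw [h, map_pow, hβ1]
  obtain ⟨j, hj, hUj⟩ := hU
  have key : ∀ g, cc Φ β hβ 1 g + cc Φ β hβ 4 g = cc Φ β hβ j g := by
    intro g
    apply co_inj
    have h1 : (unitU Φ β hβ h5) g = (β ^ j) g := congrArg (fun f => f g) hUj
    rw [unitU_apply, cc_spec Φ β hβ j g] at h1
    exact mul_left_cancel h1
  have hc5 : ∀ g, cc Φ β hβ 5 g = 0 := by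
    intro g
    have := cc_add_five Φ β hβ h5 0 g
    rw [cc_zero] at this
    simpa using this
  have k1 : ∀ g, (cc Φ β hβ 2 g - cc Φ β hβ 1 g) + (cc Φ β hβ 5 g - cc Φ β hβ 1 g)
      = cc Φ β hβ (j + 1) g - cc Φ β hβ 1 g := by
    intro g
    have := key (β g)
    rw [cc_beta, cc_beta, cc_beta] at this
    exact this
  have k2 : ∀ g, ((cc Φ β hβ 3 g - cc Φ β hβ 1 g) - (cc Φ β hβ 2 g - cc Φ β hβ 1 g)) +
      ((cc Φ β hβ 6 g - cc Φ β hβ 1 g) - (cc Φ β hβ 2 g - cc Φ β hβ 1 g))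
      = (cc Φ β hβ (j + 2) g - cc Φ β hβ 1 g) - (cc Φ β hβ 2 g - cc Φ β hβ 1 g) := by
    intro g
    have := k1 (β g)
    simp only [cc_beta] at this
    exact this
  have hc6 : ∀ g, cc Φ β hβ 6 g = cc Φ β hβ 1 g := fun g => cc_add_five Φ β hβ h5 1 g
  have hj0 : j = 0 := by
    by_contra hne
    have hj' : j = 1 ∨ j = 2 ∨ j = 3 ∨ j = 4 := by omega
    rcases hj' with rfl | rfl | rfl | rfl
    · apply h4ne
      intro g
      have := key g
      simpa using this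
    · apply h4ne
      intro g
      have e1 := k1 g
      have e2 := k2 g
      rw [hc5] at e1
      rw [hc6] at e2
      have e3 : cc Φ β hβ 3 g = cc Φ β hβ 2 g - cc Φ β hβ 1 g := by
        have : cc Φ β hβ 3 g = (cc Φ β hβ (2 + 1) g - cc Φ β hβ 1 g) + cc Φ β hβ 1 g := by abel
        rw [this, ← e1]; abel
      have e4 : cc Φ β hβ 4 g = ((cc Φ β hβ (2 + 2) g - cc Φ β hβ 1 g) -
        (cc Φ β hβ 2 g - cc Φ β hβ 1 g)) + cc Φ β hβ 2 g := by abel
      rw [e4, ← e2, e3]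
      abel
    · obtain ⟨g, hg⟩ := hex
      apply hg
      have e0 := key g
      have e1 := k1 g
      have e2 := k2 g
      rw [hc5] at e1
      rw [hc6, hc5] at e2
      have e3 : cc Φ β hβ 4 g = cc Φ β hβ 2 g - cc Φ β hβ 1 g := by
        have : cc Φ β hβ 4 g = (cc Φ β hβ (3 + 1) g - cc Φ β hβ 1 g) + cc Φ β hβ 1 g := by abel
        rw [this, ← e1]; abel
      have e4 : cc Φ β hβ 3 g = cc Φ β hβ 2 g - cc Φ β hβ 1 g := by
        have : cc Φ β hβ 3 g = (((cc Φ β hβ 3 g - cc Φ β hβ 1 g) - (cc Φ β hβ 2 g - cc Φ β hβ 1 g)) +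
          ((cc Φ β hβ 1 g - cc Φ β hβ 1 g) - (cc Φ β hβ 2 g - cc Φ β hβ 1 g))) +
          (cc Φ β hβ 2 g - cc Φ β hβ 1 g) + cc Φ β hβ 2 g := by abel
        rw [this, e2]; abel
      rw [e3, e4] at e0
      have : cc Φ β hβ 1 g = (cc Φ β hβ 1 g + (cc Φ β hβ 2 g - cc Φ β hβ 1 g)) -
        (cc Φ β hβ 2 g - cc Φ β hβ 1 g) := by abel
      rw [this, e0]; abel
    · obtain ⟨g, hg⟩ := hex
      apply hg
      have := key g
      simpa using this
  subst hj0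
  have e2 : ∀ g, cc Φ β hβ 2 g = cc Φ β hβ 1 g + cc Φ β hβ 1 g := by
    intro g
    have e1 := k1 g
    rw [hc5] at e1
    have : cc Φ β hβ 2 g = ((cc Φ β hβ 2 g - cc Φ β hβ 1 g) + (0 - cc Φ β hβ 1 g)) +
      (cc Φ β hβ 1 g + cc Φ β hβ 1 g) := by abel
    rw [this, e1]
    simp
  have e1 : ∀ g, cc Φ β hβ 1 (β g) = cc Φ β hβ 1 g := by
    intro g
    rw [cc_beta, e2]
    abel
  have e3 : ∀ j : ℕ, ∀ g, cc Φ β hβ j g = j • cc Φ β hβ 1 g := by
    intro j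
    induction j with
    | zero => intro g; rw [cc_zero, zero_smul]
    | succ j ih =>
      intro g
      have h1 := cc_beta Φ β hβ j g
      rw [ih, e1] at h1
      rw [succ_nsmul, h1]
      abel
  refine ⟨?_, e3, hex⟩
  intro g
  rw [← e3, hc5]

end

end Pool.Agent.AutLC
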