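import Pool.Agent.AutLC.Case2

set_option autoImplicit false

namespace Pool.Agent.AutLC

universe u

open scoped IsMulCommutative

theorem snd_one_of_normal (I : Subgroup A) (hI : I.Normal) (hbt : bt ∉ I) (a : A) (ha : a ∈ I) :
    a.2 = 1 := by
  by_contra hne
  have key : ∀ d : D5, d ≠ 1 → ∃ n : Fin 5,
      (d * (DihedralGroup.r 1 : D5) * d⁻¹ * (DihedralGroup.r 1 : D5)⁻¹) ^ (n : ℕ) =
        (DihedralGroup.r 1 : D5) ∨
      (d * (DihedralGroup.sr 0 : D5) * d⁻¹ * (DihedralGroup.sr 0 : D5)⁻¹) ^ (n : ℕ) =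
        (DihedralGroup.r 1 : D5) := by
    decide
  have hc : ∀ e : D5, ((1, a.2 * e * a.2⁻¹ * e⁻¹) : A) ∈ I := by
    intro e
    have h2 : a * ((1, e) * a⁻¹ * (1, e)⁻¹) ∈ I :=
      I.mul_mem ha (hI.conj_mem _ (I.inv_mem ha) _)
    have h3 : a * ((1, e) * a⁻¹ * (1, e)⁻¹) = ((1, a.2 * e * a.2⁻¹ * e⁻¹) : A) := by
      ext1
      · simp
      · simp [mul_assoc]
    rwa [h3] at h2
  obtain ⟨n, hn⟩ := key a.2 hne
  rcases hn with hn | hn
  · apply hbt
    have h1 := I.pow_mem (hc (DihedralGroup.r 1)) n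
    convert h1 using 1
    ext1
    · simp [bt]
    · exact hn.symm
  · apply hbt
    have h1 := I.pow_mem (hc (DihedralGroup.sr 0)) n
    convert h1 using 1
    ext1
    · simp [bt]
    · exact hn.symm

variable {H : Type u} [Group H] (Φ : MulAut H ≃* A)

theorem exists_transfer (h2 : ∀ g, (inn Φ g).2 = 1) :
    ∃ (K : Type u) (_ : CommGroup K) (ι : K →* H) (V : H →* K) (m : ℕ),
      Function.Injective ι ∧ (∀ z : H, (∀ g, z * g = g * z) → ∃ k, ι k = z) ∧
      (∀ z : H, (∀ g, z * g = g * z) → ι (V z) = z ^ m) ∧ ¬ 5 ∣ m := by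
  classical
  have : Fact (Nat.Prime 5) := ⟨by norm_num⟩
  let ψ : H →* Aff := (MonoidHom.fst Aff D5).comp (inn Φ)
  have hker : ∀ g, ψ g = 1 → ∀ k, g * k = k * g := by
    intro g hg
    apply inn_eq_one Φ
    ext1
    · exact hg
    · exact h2 g
  let R := ψ.range
  let Q : Sylow 5 R := default
  let L : Subgroup H := (Q : Subgroup R).comap ψ.rangeRestrict
  have hLidx : L.index = (Q : Subgroup R).index :=
    Subgroup.index_comap_of_surjective _ ψ.rangeRestrict_surjective
  have hfin : L.FiniteIndex := by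
    constructor
    rw [hLidx]
    exact Subgroup.FiniteIndex.index_ne_zero
  have h5 : ¬ 5 ∣ L.index := by
    rw [hLidx]
    exact Q.not_dvd_index
  -- Q is cyclic
  have hQ : IsCyclic (Q : Subgroup R) := by
    obtain ⟨k, hk⟩ := (IsPGroup.iff_card).mp Q.isPGroup'
    have hd : Nat.card (Q : Subgroup R) ∣ 110 := by
      have h1 : Nat.card (Q : Subgroup R) ∣ Nat.card R := Subgroup.card_subgroup_dvd_card _
      have h3 : Nat.card R ∣ Nat.card Aff := Subgroup.card_subgroup_dvd_card _
      rw [Aff.card] at h3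
      exact h1.trans h3
    rw [hk] at hd
    have hk2 : k = 0 ∨ k = 1 := by
      by_contra hcon
      push Not at hcon
      have : 2 ≤ k := by omega
      have h3 : 5 ^ 2 ∣ 110 := (pow_dvd_pow 5 this).trans hd
      norm_num at h3
    rcases hk2 with rfl | rfl
    · rw [pow_zero] at hk
      have : Subsingleton (Q : Subgroup R) := (Nat.card_eq_one_iff_unique.mp hk).1
      exact isCyclic_of_subsingleton
    · exact isCyclic_of_prime_card (p := 5) (by simpa using hk)
  let f : L →* (Q : Subgroup R) :=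
    (ψ.rangeRestrict.comp L.subtype).codRestrict (Q : Subgroup R) (fun x => x.2)
  have hf : f.ker ≤ Subgroup.center L := by
    intro x hx
    rw [Subgroup.mem_center_iff]
    intro y
    apply Subtype.ext
    have hx' : f x = 1 := hx
    have h3 : ψ (x : H) = 1 := by
      have h4 := congrArg (fun q : (Q : Subgroup R) => ((q : R) : Aff)) hx'
      exact h4
    exact (hker _ h3 _).symm
  have hmc : IsMulCommutative L := MonoidHom.isMulCommutative_of_isCyclic_of_ker_le_center f hf
  have hzmem : ∀ z : H, (∀ g, z * g = g * z) → z ∈ L := by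
    intro z hz
    show ψ.rangeRestrict z ∈ (Q : Subgroup R)
    have : ψ.rangeRestrict z = 1 := by
      apply Subtype.ext
      show (inn Φ z).1 = 1
      rw [inn_eq_one_of_central Φ hz]
      rfl
    rw [this]
    exact Subgroup.one_mem _
  refine ⟨L, inferInstance, L.subtype, MonoidHom.transfer (MonoidHom.id L), L.index,
    L.subtype_injective, fun z hz => ⟨⟨z, hzmem z hz⟩, rfl⟩, ?_, h5⟩
  intro z hz
  have h6 : ∀ (k : ℕ) (g₀ : H), g₀⁻¹ * z ^ k * g₀ ∈ L → g₀⁻¹ * z ^ k * g₀ = z ^ k := by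
    intro k g₀ _
    have : Commute (z ^ k) g₀ := Commute.pow_left (hz g₀) k
    rw [mul_assoc, this.eq]
    group
  rw [MonoidHom.transfer_eq_pow (MonoidHom.id L) z h6]
  rfl

end Pool.Agent.AutLC
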