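import Pool.Agent.AutLC.Case1

set_option autoImplicit false

namespace Pool.Agent.AutLC

universe u

variable {H : Type u} [Group H] (Φ : MulAut H ≃* A)

/-- the automorphism `g ↦ g s ^ (f g)` for a central `s` with `f s = 0` -/
def cen (s : H) (hs : ∀ g, s * g = g * s) (hs5 : s ^ 5 = 1) (f : H → ZMod 5)
    (hf : ∀ a b, f (a * b) = f a + f b) (hfs : f s = 0) : MulAut H where
  toFun g := g * pw s (f g)
  invFun g := g * pw s (-f g)
  left_inv g := by
    have h1 : ∀ n : ℕ, f (s ^ n) = 0 := by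
      intro n
      induction n with
      | zero =>
        have := hf 1 1
        simp at this
        simpa using this
      | succ n ih => rw [pow_succ, hf, ih, hfs, add_zero]
    show g * pw s (f g) * pw s (-f (g * pw s (f g))) = g
    rw [hf]
    have h2 : f (pw s (f g)) = 0 := h1 _
    rw [h2, add_zero, mul_assoc, ← pw_add hs5, add_neg_cancel, pw_zero, mul_one]
  right_inv g := by
    have h1 : ∀ n : ℕ, f (s ^ n) = 0 := by
      intro n
      induction n with
      | zero =>
        have := hf 1 1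
        simp at this
        simpa using this
      | succ n ih => rw [pow_succ, hf, ih, hfs, add_zero]
    show g * pw s (-f g) * pw s (f (g * pw s (-f g))) = g
    rw [hf]
    have h2 : f (pw s (-f g)) = 0 := h1 _
    rw [h2, add_zero, mul_assoc, ← pw_add hs5, neg_add_cancel, pw_zero, mul_one]
  map_mul' a b := by
    show a * b * pw s (f (a * b)) = a * pw s (f a) * (b * pw s (f b))
    rw [hf, pw_add hs5]
    have := pw_comm hs (f a) b
    calc a * b * (pw s (f a) * pw s (f b)) = a * (b * pw s (f a)) * pw s (f b) := by group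
      _ = a * (pw s (f a) * b) * pw s (f b) := by rw [this]
      _ = _ := by group

theorem cen_apply (s : H) (hs : ∀ g, s * g = g * s) (hs5 : s ^ 5 = 1) (f : H → ZMod 5)
    (hf : ∀ a b, f (a * b) = f a + f b) (hfs : f s = 0) (g : H) :
    cen s hs hs5 f hf hfs g = g * pw s (f g) := rfl

theorem central_mem (ht : ((Aff.t, 1) : A) ∈ (inn Φ).range)
    (s : H) (hs : ∀ g, s * g = g * s) (hs5 : s ^ 5 = 1) (f : H → ZMod 5)
    (hf : ∀ a b, f (a * b) = f a + f b) (hfs : f s = 0) :
    ∃ j : ℕ, j < 5 ∧ ∀ g, g * pw s (f g) = ((Φ.symm bt) ^ j) g := by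
  have hfpow : ∀ i : ZMod 5, f (pw s i) = 0 := by
    intro i
    have h1 : ∀ n : ℕ, f (s ^ n) = 0 := by
      intro n
      induction n with
      | zero =>
        have := hf 1 1
        simp at this
        simpa using this
      | succ n ih => rw [pow_succ, hf, ih, hfs, add_zero]
    exact h1 _
  set α := cen s hs hs5 f hf hfs with hα
  have hpow : ∀ n : ℕ, ∀ g, (α ^ n) g = g * pw s (n * f g) := by
    intro n
    induction n with
    | zero => intro g; simp [pw_zero]
    | succ n ih =>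
      intro g
      rw [pow_succ', MulAut.mul_apply, ih, hα, cen_apply, hf, hfpow, add_zero, mul_assoc,
        ← pw_add hs5]
      congr 2
      push_cast
      ring
  have h5 : α ^ 5 = 1 := by
    ext g
    rw [hpow]
    have : ((5 : ℕ) : ZMod 5) = 0 := by decide
    rw [this, zero_mul, pw_zero, mul_one]
    rfl
  have hcomm : ∀ g, Φ α * inn Φ g = inn Φ g * Φ α := by
    intro g
    have h1 := inn_aut Φ α g
    have h2 : inn Φ (α g) = inn Φ g := by
      rw [hα, cen_apply, map_mul]
      have : inn Φ (pw s (f g)) = 1 := by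
        apply inn_eq_one_of_central
        exact pw_comm hs _
      rw [this, mul_one]
    rw [h2] at h1
    exact mul_inv_eq_iff_eq_mul.mp h1
  obtain ⟨g0, hg0⟩ := ht
  obtain ⟨j, hj, hj2⟩ := mem_of_commute_t (Φ α) (by rw [← hg0]; exact hcomm g0)
    (by rw [← map_pow, h5, map_one])
  refine ⟨j, hj, ?_⟩
  intro g
  have h3 : α = (Φ.symm bt) ^ j := by
    apply Φ.injective
    rw [hj2, map_pow, MulEquiv.apply_symm_apply]
  rw [← h3, hα, cen_apply]

include Φ in
/-- `f s = 0` for every central `s` with `s ^ 5 = 1` and every homomorphism to `ZMod 5`. -/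
theorem f_eq_zero (s : H) (hs : ∀ g, s * g = g * s) (hs5 : s ^ 5 = 1) (f : H → ZMod 5)
    (hf : ∀ a b, f (a * b) = f a + f b) : f s = 0 := by
  by_contra hne
  have : Fact (Nat.Prime 5) := ⟨by norm_num⟩
  have hs1 : s ≠ 1 := by
    intro h
    apply hne
    rw [h]
    have := hf 1 1
    simp at this
    simpa using this
  let θ : H →* H := MonoidHom.mk' (fun g => g * pw s ((f s)⁻¹ * f g)) (by
    intro a b
    rw [hf, mul_add, pw_add hs5]
    have := pw_comm hs ((f s)⁻¹ * f a) b
    calc a * b * (pw s ((f s)⁻¹ * f a) * pw s ((f s)⁻¹ * f b))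
        = a * (b * pw s ((f s)⁻¹ * f a)) * pw s ((f s)⁻¹ * f b) := by group
      _ = a * (pw s ((f s)⁻¹ * f a) * b) * pw s ((f s)⁻¹ * f b) := by rw [this]
      _ = _ := by group)
  apply GL2 Φ θ s hs5 hs1
  · show s * pw s ((f s)⁻¹ * f s) = s ^ 2
    rw [inv_mul_cancel₀ hne, pw_one, pow_two]
  · intro g
    exact ⟨_, rfl⟩

theorem t_mem_range (g : H) (hg : (inn Φ g).1 ≠ 1) : ((Aff.t, 1) : A) ∈ (inn Φ).range :=
  t_mem _ (range_normal Φ) _ ⟨g, rfl⟩ hg

theorem case1b (x : H) (hx : inn Φ x = bt) (hall : ∀ h, inn Φ h * bt * (inn Φ h)⁻¹ = bt) :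
    False := by
  have hall' : ∀ h, inn Φ h * bt = bt * inn Φ h := fun h => mul_inv_eq_iff_eq_mul.mp (hall h)
  -- x is not central
  have : ∃ h0, h0 * x ≠ x * h0 := by
    by_contra hcon
    push Not at hcon
    have := inn_eq_one_of_central Φ (h := x) (fun g => (hcon g).symm)
    rw [hx] at this
    exact bt_ne_one this
  obtain ⟨h0, hh0⟩ := this
  obtain ⟨s, hs⟩ : ∃ s, s = h0 * x * h0⁻¹ * x⁻¹ := ⟨_, rfl⟩
  have hs1 : s ≠ 1 := by
    intro h
    apply hh0
    rw [h] at hs
    have h1 := mul_inv_eq_one.mp hs.symm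
    exact mul_inv_eq_iff_eq_mul.mp h1
  have hinns : inn Φ s = 1 := by
    rw [hs]
    simp only [map_mul, map_inv, hx, hall, mul_inv_cancel]
  have hsc := inn_eq_one Φ hinns
  have hx5 : ∀ g, x ^ 5 * g = g * x ^ 5 := by
    apply inn_eq_one Φ
    rw [map_pow, hx, bt_pow_five]
  have hs5 : s ^ 5 = 1 := by
    have h1 : h0 * x * h0⁻¹ = s * x := by rw [hs]; group
    have h2 : (s * x) ^ 5 = x ^ 5 := by
      rw [← h1, conj_pow, ← hx5 h0, mul_inv_cancel_right]
    have h3 : Commute s x := hsc x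
    rw [h3.mul_pow] at h2
    exact mul_eq_right.mp h2
  -- f
  have heps : ∀ h, eps (inn Φ h).2 = 1 := by
    intro h
    rcases conj_bt (inn Φ h) with ⟨h1, _⟩ | ⟨_, h2⟩
    · exact h1
    · rw [hall] at h2
      exfalso
      have h3 : bt.2 = (bt⁻¹).2 := congrArg Prod.snd h2
      exact absurd h3 (by decide)
  let f : H → ZMod 5 := fun h => ii (inn Φ h).2
  have hf : ∀ a b, f (a * b) = f a + f b := by
    intro a b
    show ii (inn Φ (a * b)).2 = _
    rw [map_mul]
    have := ii_mul (inn Φ a).2 (inn Φ b).2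
    rw [heps, one_mul] at this
    exact this
  have hfs : f s = 0 := by
    show ii (inn Φ s).2 = 0
    rw [hinns]; rfl
  have hfst : (inn Φ h0).1 ≠ 1 := by
    intro h1
    obtain ⟨j, _, hj⟩ := mem_zpowers_of_snd (inn Φ h0) h1 (congrArg Prod.snd (hall' h0))
    have h2 : inn Φ (h0 * (x ^ j)⁻¹) = 1 := by
      rw [map_mul, hj, map_inv, map_pow, hx, mul_inv_cancel]
    have h3 := inn_eq_one Φ h2 x
    have h4 : Commute (h0 * (x ^ j)⁻¹) x := h3
    have h5 : Commute (x ^ j) x := (Commute.refl x).pow_left _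
    have h6 := h4.mul_left h5
    rw [inv_mul_cancel_right] at h6
    exact hh0 h6.eq
  obtain ⟨j, _, hj⟩ := central_mem Φ (t_mem_range Φ h0 hfst) s hsc hs5 f hf hfs
  have h1 := hj x
  have h2 : Φ.symm bt = MulAut.conj x := by
    rw [← hx, inn_apply, MulEquiv.symm_apply_apply]
  rw [h2, ← map_pow, MulAut.conj_apply] at h1
  have h3 : x ^ j * x * (x ^ j)⁻¹ = x := by
    have : Commute (x ^ j) x := (Commute.refl x).pow_left _
    rw [this.eq, mul_inv_cancel_right]
  have h4 : f x = 1 := by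
    show ii (inn Φ x).2 = 1
    rw [hx]; rfl
  rw [h3, h4, pw_one] at h1
  exact hs1 (mul_eq_left.mp h1)

theorem case1 (x : H) (hx : inn Φ x = bt) : False := by
  by_cases h : ∃ y, inn Φ y * bt * (inn Φ y)⁻¹ = bt⁻¹
  · obtain ⟨y, hy⟩ := h
    exact case1a Φ x y hx hy
  · push Not at h
    apply case1b Φ x hx
    intro g
    rcases conj_bt (inn Φ g) with ⟨_, h1⟩ | ⟨_, h1⟩
    · exact h1
    · exact absurd h1 (h g)

end Pool.Agent.AutLC
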