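import Mathlib

set_option autoImplicit false

namespace Pool.Agent.AutLC

open Real

/-- continuous one-parameter subgroups of the circle -/
theorem exists_linear_lift (f : ℝ → Circle) (hf : Continuous f) (hadd : ∀ x y, f (x + y) = f x * f y) :
    ∃ c : ℝ, ∀ x, f x = Circle.exp (c * x) := by
  have hf0 : f 0 = 1 := by
    have := hadd 0 0
    rw [add_zero] at this
    exact mul_eq_left.mp this.symm
  obtain ⟨F, ⟨hF0, hF⟩, huniq⟩ := Circle.isCoveringMap_exp.existsUnique_continuousMap_lifts
    (⟨f, hf⟩ : C(ℝ, Circle)) (0 : ℝ) (0 : ℝ) (by simp [hf0])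
  have hF' : ∀ x, Circle.exp (F x) = f x := fun x => congrFun hF x
  have hadd' : ∀ x y, F (x + y) = F x + F y := by
    intro x y
    have h1 := huniq (⟨fun y => F (x + y) - F x, by fun_prop⟩ : C(ℝ, ℝ)) ⟨by simp, by
      funext z
      show Circle.exp (F (x + z) - F x) = f z
      rw [Circle.exp_sub, hF', hF', hadd]
      simp⟩
    have h2 : F (x + y) - F x = F y := congrArg (fun g : C(ℝ, ℝ) => g y) h1
    linarith
  let L : ℝ →+ ℝ := AddMonoidHom.mk' F hadd'
  refine ⟨F 1, fun x => ?_⟩
  rw [← hF']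
  congr 1
  have := map_real_smul L F.continuous x 1
  simp only [smul_eq_mul, mul_one] at this
  show L x = L 1 * x
  rw [this]
  ring

/-- Injective continuous endomorphisms of the circle are the identity or the inversion. -/
theorem circle_aut (σ : Circle →* Circle) (hc : Continuous σ) (hi : Function.Injective σ) :
    (∀ z, σ z = z) ∨ (∀ z, σ z = z⁻¹) := by
  obtain ⟨c, hcc'⟩ := exists_linear_lift (fun x => σ (Circle.exp x))
    (hc.comp Circle.exp.continuous) (fun x y => by rw [Circle.exp_add, map_mul])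
  have hcc : ∀ x : ℝ, σ (Circle.exp x) = Circle.exp (c * x) := hcc'
  have hpi : (0 : ℝ) < 2 * π := by positivity
  -- c is an integer
  have h1 : Circle.exp (c * (2 * π)) = 1 := by
    rw [← hcc, Circle.exp_two_pi, map_one]
  obtain ⟨n, hn⟩ := Circle.exp_eq_one.mp h1
  have hcn : c = n := by
    have := mul_right_cancel₀ hpi.ne' hn
    exact this
  have hn0 : n ≠ 0 := by
    intro h0
    rw [h0, Int.cast_zero] at hcn
    have h2 : σ (Circle.exp π) = σ 1 := by
      rw [hcc, hcn, zero_mul, Circle.exp_zero, map_one]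
    exact Circle.exp_pi_ne_one (hi h2)
  -- exp (2π/n) is killed
  have h3 : Circle.exp (2 * π / n) = 1 := by
    apply hi
    rw [hcc, hcn, map_one]
    have : (n : ℝ) * (2 * π / n) = 2 * π := by field_simp
    rw [this, Circle.exp_two_pi]
  obtain ⟨k, hk⟩ := Circle.exp_eq_one.mp h3
  have h4 : k * n = 1 := by
    have hn' : (n : ℝ) ≠ 0 := by exact_mod_cast hn0
    have h5 : (1 : ℝ) = k * n := by
      field_simp at hk
      have := hk
      nlinarith [hk]
    exact_mod_cast h5.symm
  have hz : ∀ z : Circle, ∃ x : ℝ, Circle.exp x = z := fun z => ⟨_, Circle.exp_arg z⟩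
  rcases Int.eq_one_or_neg_one_of_mul_eq_one' h4 with ⟨_, hn1⟩ | ⟨_, hn1⟩
  · left
    intro z
    obtain ⟨x, rfl⟩ := hz z
    rw [hcc, hcn, hn1]
    simp
  · right
    intro z
    obtain ⟨x, rfl⟩ := hz z
    rw [hcc, hcn, hn1]
    simp

end Pool.Agent.AutLC
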