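import Pool.Agent.AutLC.Basic
import Pool.Agent.AutLC.CircleAut

set_option autoImplicit false

namespace Pool.Agent.AutLC

/-- powers of four modulo eleven -/
def cj (j : ZMod 5) : ZMod 11 := 4 ^ j.val

theorem cj_add : ∀ i j : ZMod 5, cj (i + j) = cj i * cj j := by decide
theorem cj_zero : cj 0 = 1 := by decide
theorem cj_one : cj 1 = 4 := by decide
theorem cj_neg (j : ZMod 5) : cj (-j) * cj j = 1 := by
  rw [← cj_add, neg_add_cancel, cj_zero]
theorem cj_eq_one : ∀ j : ZMod 5, cj j = 1 → j = 0 := by decide
theorem cj_eq_four : ∀ j : ZMod 5, cj j = 4 → j = 1 := by decide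

/-- the nonabelian group of order 55 -/
@[ext] structure E where
  j : ZMod 5
  b : ZMod 11

namespace E

instance : Mul E := ⟨fun x y => ⟨x.j + y.j, x.b + cj x.j * y.b⟩⟩
instance : One E := ⟨⟨0, 0⟩⟩
instance : Inv E := ⟨fun x => ⟨-x.j, -(cj (-x.j) * x.b)⟩⟩

@[simp] theorem mul_j (x y : E) : (x * y).j = x.j + y.j := rfl
@[simp] theorem mul_b (x y : E) : (x * y).b = x.b + cj x.j * y.b := rfl
@[simp] theorem one_j : (1 : E).j = 0 := rfl
@[simp] theorem one_b : (1 : E).b = 0 := rfl
@[simp] theorem inv_j (x : E) : (x⁻¹).j = -x.j := rfl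
@[simp] theorem inv_b (x : E) : (x⁻¹).b = -(cj (-x.j) * x.b) := rfl

instance : Group E where
  mul_assoc x y z := by
    ext
    · simp [add_assoc]
    · simp [cj_add]; ring
  one_mul x := by ext <;> simp [cj_zero]
  mul_one x := by ext <;> simp
  inv_mul_cancel x := by ext <;> simp

instance : TopologicalSpace E := ⊥
instance : DiscreteTopology E := ⟨rfl⟩

def equivProd : E ≃ ZMod 5 × ZMod 11 where
  toFun x := (x.j, x.b)
  invFun p := ⟨p.1, p.2⟩
  left_inv _ := rfl
  right_inv _ := rfl

instance : Finite E := Finite.of_equiv _ equivProd.symm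

theorem pow_j (x : E) (n : ℕ) : (x ^ n).j = n * x.j := by
  induction n with
  | zero => simp
  | succ n ih => simp [pow_succ, ih]; ring

theorem pow_b_of_j_zero (x : E) (h : x.j = 0) (n : ℕ) : (x ^ n).b = n * x.b := by
  induction n with
  | zero => simp
  | succ n ih => simp [pow_succ, ih, pow_j, h, cj_zero]; ring

/-- generators -/
def p : E := ⟨0, 1⟩
def q : E := ⟨1, 0⟩

theorem p_pow (n : ℕ) : p ^ n = ⟨0, n⟩ := by
  ext
  · simp [pow_j, p]
  · rw [pow_b_of_j_zero _ rfl]; simp [p]

theorem q_pow (n : ℕ) : q ^ n = ⟨n, 0⟩ := by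
  induction n with
  | zero => ext <;> simp
  | succ n ih =>
    rw [pow_succ, ih]
    ext <;> simp [q]

theorem eq_gen (x : E) : x = p ^ x.b.val * q ^ x.j.val := by
  rw [p_pow, q_pow]
  ext
  · simp
  · simp

theorem rel : q * p = p ^ 4 * q := by
  rw [p_pow]
  ext
  · simp [p, q]
  · simp [p, q, cj_one, cj_zero]

theorem eq_one_of_central (x : E) (h : ∀ y, x * y = y * x) : x = 1 := by
  have h1 := congrArg E.b (h p)
  simp [p, cj_zero] at h1
  rw [add_comm] at h1
  have hj := cj_eq_one _ (add_right_cancel h1)
  have h2 := congrArg E.b (h q)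
  simp [q, cj_one] at h2
  ext
  · exact hj
  · have : ∀ b : ZMod 11, b = 4 * b → b = 0 := by decide
    exact this _ h2

end E

/-- primitive fifth root of unity -/
noncomputable def ζ : Circle := Circle.exp (2 * Real.pi / 5)

theorem ζ_pow : ζ ^ 5 = 1 := by
  have h : ζ ^ 5 = Circle.exp (2 * Real.pi) := by
    have := Circle.exp_intCast_mul (2 * Real.pi / 5) 5
    rw [zpow_ofNat] at this
    rw [ζ, ← this]
    congr 1
    push_cast
    ring
  rw [h, Circle.exp_two_pi]

theorem ζ_prim : IsPrimitiveRoot (ζ : ℂ) 5 := by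
  have h := Complex.isPrimitiveRoot_exp 5 (by norm_num)
  convert h using 1
  rw [ζ, Circle.coe_exp]
  congr 1
  push_cast
  ring

theorem ζ_ne_one : ζ ≠ 1 := by
  intro h
  have h1 := ζ_prim
  rw [h] at h1
  have := h1.eq_orderOf
  simp at this

theorem root_eq (z : Circle) (hz : z ^ 5 = 1) : ∃ i : ZMod 5, z = pw ζ i := by
  have h1 : (z : ℂ) ^ 5 = 1 := by
    rw [← Circle.coe_pow, hz, Circle.coe_one]
  obtain ⟨i, hi, h⟩ := ζ_prim.eq_pow_of_pow_eq_one h1
  refine ⟨i, ?_⟩
  rw [pw_natCast ζ_pow]
  apply Circle.ext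
  rw [Circle.coe_pow, h]

/-- action of `D₅` -/
noncomputable def actT (d : D5) (j : ZMod 5) (t : Circle) : Circle :=
  match d with
  | DihedralGroup.r i => pw ζ (j * i) * t
  | DihedralGroup.sr i => (pw ζ (j * i) * t)⁻¹

theorem actT_mul (d d' : D5) (j : ZMod 5) (t : Circle) :
    actT (d * d') j t = actT d j (actT d' j t) := by
  have hz := ζ_pow
  rcases d with i | i <;> rcases d' with i' | i'
  · rw [DihedralGroup.r_mul_r]
    simp only [actT]
    rw [mul_add, pw_add hz, mul_assoc]
  · rw [DihedralGroup.r_mul_sr]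
    simp only [actT]
    rw [mul_sub, sub_eq_add_neg, pw_add hz, pw_neg hz]
    group
    simp only [mul_comm, mul_left_comm]
  · rw [DihedralGroup.sr_mul_r]
    simp only [actT]
    rw [mul_add, pw_add hz, mul_assoc]
  · rw [DihedralGroup.sr_mul_sr]
    simp only [actT]
    rw [mul_sub, sub_eq_add_neg, pw_add hz, pw_neg hz]
    group
    simp only [mul_comm, mul_left_comm]

theorem actT_one (j : ZMod 5) (t : Circle) : actT 1 j t = t := by
  rw [← DihedralGroup.r_zero]
  simp only [actT]
  rw [mul_zero, pw_zero, one_mul]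

theorem actT_hom (d : D5) (j j' : ZMod 5) (t t' : Circle) :
    actT d (j + j') (t * t') = actT d j t * actT d j' t' := by
  have hz := ζ_pow
  rcases d with i | i
  · simp only [actT]
    rw [add_mul, pw_add hz, mul_mul_mul_comm]
  · simp only [actT]
    rw [add_mul, pw_add hz, mul_mul_mul_comm, mul_inv]

/-- action of the affine group -/
def actE (x : Aff) (e : E) : E := ⟨e.j, x.k * e.b + (1 - cj e.j) * x.b⟩

theorem actE_mul (x y : Aff) (e : E) : actE (x * y) e = actE x (actE y e) := by
  ext
  · rfl
  · simp [actE]; ring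

theorem actE_one (e : E) : actE 1 e = e := by
  ext
  · rfl
  · simp [actE]

theorem actE_hom (x : Aff) (e e' : E) : actE x (e * e') = actE x e * actE x e' := by
  ext
  · rfl
  · simp [actE, cj_add]; ring

abbrev G := E × Circle

noncomputable def act (a : A) (g : G) : G := (actE a.1 g.1, actT a.2 g.1.j g.2)

theorem act_mul (a a' : A) (g : G) : act (a * a') g = act a (act a' g) := by
  ext1
  · exact actE_mul _ _ _
  · exact actT_mul _ _ _ _

theorem act_one (g : G) : act 1 g = g := by
  ext1
  · exact actE_one _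
  · exact actT_one _ _

theorem act_hom (a : A) (g g' : G) : act a (g * g') = act a g * act a g' := by
  ext1
  · exact actE_hom _ _ _
  · exact actT_hom _ _ _ _ _

theorem act_continuous (a : A) : Continuous (act a) := by
  unfold act
  apply Continuous.prodMk
  · exact (continuous_of_discreteTopology (f := actE a.1)).comp continuous_fst
  · rcases a with ⟨x, d⟩
    rcases d with i | i
    · simp only [actT]
      exact ((continuous_of_discreteTopology (f := fun e : E => pw ζ (e.j * i))).comp
        continuous_fst).mul continuous_snd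
    · simp only [actT]
      exact (((continuous_of_discreteTopology (f := fun e : E => pw ζ (e.j * i))).comp
        continuous_fst).mul continuous_snd).inv

noncomputable def autG (a : A) : G ≃ₜ* G where
  toFun := act a
  invFun := act a⁻¹
  left_inv g := by rw [← act_mul, inv_mul_cancel, act_one]
  right_inv g := by rw [← act_mul, mul_inv_cancel, act_one]
  map_mul' := act_hom a
  continuous_toFun := act_continuous a
  continuous_invFun := act_continuous a⁻¹

theorem autG_apply (a : A) (g : G) : autG a g = act a g := rfl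

theorem autG_mul (a b : A) : autG (a * b) = (autG b).trans (autG a) := by
  ext1 g
  show act (a * b) g = act a (act b g)
  exact act_mul a b g

theorem autG_injective : Function.Injective autG := by
  intro a a' h
  have h0 : ∀ g, act a g = act a' g := fun g => congrArg (fun f : G ≃ₜ* G => f g) h
  have hz := ζ_pow
  ext1
  · have h1 := congrArg (fun g : G => g.1.b) (h0 (E.p, 1))
    have h2 := congrArg (fun g : G => g.1.b) (h0 (E.q, 1))
    simp [act, actE, E.p, E.q, cj_zero, cj_one] at h1 h2
    ext
    · exact h1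
    · have : ∀ x y : ZMod 11, (1 - 4) * x = (1 - 4) * y → x = y := by decide
      apply this
      simpa using h2
  · have h1 := congrArg (fun g : G => g.2) (h0 (1, ζ))
    have h2 := congrArg (fun g : G => g.2) (h0 (E.q, 1))
    have h3 : ζ ≠ ζ⁻¹ := by
      intro h4
      apply ζ_ne_one
      apply eq_one_of_sq hz
      nth_rewrite 1 [h4]
      exact inv_mul_cancel _
    rcases ha : a.2 with i | i <;> rcases ha' : a'.2 with i' | i'
    · rw [DihedralGroup.r.injEq]
      simp only [act, ha, ha', actT, E.q, one_mul, mul_one] at h2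
      exact pw_injective hz ζ_ne_one h2
    · exfalso
      simp only [act, ha, ha', actT, E.one_j, zero_mul, pw_zero, one_mul] at h1
      exact h3 h1
    · exfalso
      simp only [act, ha, ha', actT, E.one_j, zero_mul, pw_zero, one_mul] at h1
      exact h3 h1.symm
    · rw [DihedralGroup.sr.injEq]
      simp only [act, ha, ha', actT, E.q, one_mul, mul_one] at h2
      exact pw_injective hz ζ_ne_one (inv_injective h2)

end Pool.Agent.AutLC
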