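import Mathlib

set_option autoImplicit false

namespace Pool.Agent.AutLC

/-- The affine map `x ↦ k x + b` of `ZMod 11`. -/
@[ext] structure Aff where
  k : (ZMod 11)ˣ
  b : ZMod 11

namespace Aff

instance : Mul Aff := ⟨fun x y => ⟨x.k * y.k, x.b + x.k * y.b⟩⟩
instance : One Aff := ⟨⟨1, 0⟩⟩
instance : Inv Aff := ⟨fun x => ⟨x.k⁻¹, -((x.k⁻¹ : (ZMod 11)ˣ) * x.b)⟩⟩

@[simp] theorem mul_k (x y : Aff) : (x * y).k = x.k * y.k := rfl
@[simp] theorem mul_b (x y : Aff) : (x * y).b = x.b + x.k * y.b := rfl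
@[simp] theorem one_k : (1 : Aff).k = 1 := rfl
@[simp] theorem one_b : (1 : Aff).b = 0 := rfl
@[simp] theorem inv_k (x : Aff) : (x⁻¹).k = x.k⁻¹ := rfl
@[simp] theorem inv_b (x : Aff) : (x⁻¹).b = -((x.k⁻¹ : (ZMod 11)ˣ) * x.b) := rfl

instance : Group Aff where
  mul_assoc x y z := by
    ext
    · simp [mul_assoc]
    · simp; ring
  one_mul x := by ext <;> simp
  mul_one x := by ext <;> simp
  inv_mul_cancel x := by ext <;> simp

def equivProd : Aff ≃ (ZMod 11)ˣ × ZMod 11 where
  toFun x := (x.k, x.b)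
  invFun p := ⟨p.1, p.2⟩
  left_inv _ := rfl
  right_inv _ := rfl

instance : Finite Aff := Finite.of_equiv _ equivProd.symm

theorem card : Nat.card Aff = 110 := by
  rw [Nat.card_congr equivProd, Nat.card_prod, Nat.card_eq_fintype_card, Nat.card_eq_fintype_card]
  have h1 : Fintype.card (ZMod 11)ˣ = 10 := by
    have : Fact (Nat.Prime 11) := ⟨by norm_num⟩
    rw [ZMod.card_units 11]
  rw [h1, ZMod.card]

theorem pow_k (x : Aff) (n : ℕ) : (x ^ n).k = x.k ^ n := by
  induction n with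
  | zero => simp
  | succ n ih => simp [pow_succ, ih]

theorem pow_b_of_k_one (x : Aff) (h : x.k = 1) (n : ℕ) : (x ^ n).b = n * x.b := by
  induction n with
  | zero => simp
  | succ n ih => simp [pow_succ, ih, pow_k, h]; ring

theorem units_pow_ten (u : (ZMod 11)ˣ) : u ^ 10 = 1 := by
  have : Fact (Nat.Prime 11) := ⟨by norm_num⟩
  exact ZMod.units_pow_card_sub_one_eq_one 11 u

theorem eleven_eq_zero : (11 : ZMod 11) = 0 := by decide

theorem pow_eleven_of_k_one (x : Aff) (h : x.k = 1) : x ^ 11 = 1 := by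
  ext
  · rw [pow_k, h]; simp
  · rw [pow_b_of_k_one _ h]
    simp [eleven_eq_zero]

theorem pow_110 (x : Aff) : x ^ 110 = 1 := by
  have h : (x ^ 10).k = 1 := by rw [pow_k, units_pow_ten]
  have h2 : x ^ 110 = (x ^ 10) ^ 11 := by rw [← pow_mul]
  rw [h2, pow_eleven_of_k_one _ h]

/-- the translation by one -/
def t : Aff := ⟨1, 1⟩

/-- if `x` commutes with the translation `t`, then `x` is a translation. -/
theorem k_eq_one_of_commute_t (x : Aff) (h : x * t = t * x) : x.k = 1 := by
  have h1 := congrArg Aff.b h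
  simp [t] at h1
  rw [add_comm] at h1
  have h2 := add_right_cancel h1
  ext
  simpa using h2

/-- a translation of exponent five is trivial -/
theorem eq_one_of_pow_five (x : Aff) (h : x.k = 1) (h5 : x ^ 5 = 1) : x = 1 := by
  have h11 := pow_eleven_of_k_one x h
  have : x ^ 11 = (x ^ 5) ^ 2 * x := by rw [← pow_mul, ← pow_succ]
  rw [h5, h11] at this
  simpa using this.symm

/-- the unit two -/
def two : (ZMod 11)ˣ := ⟨2, 6, by decide, by decide⟩

/-- center trivial -/
theorem eq_one_of_central (x : Aff) (h : ∀ y, x * y = y * x) : x = 1 := by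
  have hk := k_eq_one_of_commute_t x (h t)
  have h2 := congrArg Aff.b (h ⟨two, 0⟩)
  simp [two] at h2
  ext
  · simp [hk]
  · have h3 : x.b = 2 * x.b - x.b := by ring
    rw [← h2] at h3
    simpa using h3

end Aff

abbrev D5 := DihedralGroup 5

/-- the group `AGL(1,11) × D₅`, of order 1100 -/
abbrev A := Aff × D5

def bt : A := (1, DihedralGroup.r 1)
def ta : A := (1, DihedralGroup.sr 0)

theorem D5.pow_ten : ∀ d : D5, d ^ 10 = 1 := by decide

theorem A.pow_110 (a : A) : a ^ 110 = 1 := by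
  ext1
  · exact Aff.pow_110 _
  · have : a.2 ^ 110 = (a.2 ^ 10) ^ 11 := by rw [← pow_mul]
    simp only [Prod.pow_snd, this, D5.pow_ten, one_pow, Prod.snd_one]

theorem bt_ne_one : bt ≠ 1 := by
  intro h
  have := congrArg Prod.snd h
  exact absurd this (by decide)

theorem bt_pow_five : bt ^ 5 = 1 := by
  ext1
  · simp [bt]
  · show (DihedralGroup.r 1 : D5) ^ 5 = 1
    decide

theorem ta_sq : ta * ta = 1 := by
  ext1
  · simp [ta]
  · show (DihedralGroup.sr 0 : D5) * DihedralGroup.sr 0 = 1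
    decide

theorem ta_bt : ta * bt * ta⁻¹ = bt⁻¹ := by
  ext1
  · simp [ta, bt]
  · show (DihedralGroup.sr 0 : D5) * DihedralGroup.r 1 * (DihedralGroup.sr 0)⁻¹ = (DihedralGroup.r 1)⁻¹
    decide

/-- the `ZMod 5` coordinate on `D₅` -/
def ii : D5 → ZMod 5
  | DihedralGroup.r i => i
  | DihedralGroup.sr i => i

/-- the sign on `D₅` -/
def eps : D5 → ZMod 5
  | DihedralGroup.r _ => 1
  | DihedralGroup.sr _ => -1

theorem ii_mul : ∀ a b : D5, ii (a * b) = eps b * ii a + ii b := by decide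

theorem eps_eq : ∀ a : D5, eps a = 1 ∨ eps a = -1 := by decide

theorem conj_bt (a : A) : (eps a.2 = 1 ∧ a * bt * a⁻¹ = bt) ∨ (eps a.2 = -1 ∧ a * bt * a⁻¹ = bt⁻¹) := by
  have key : ∀ d : D5, (eps d = 1 ∧ d * DihedralGroup.r 1 * d⁻¹ = DihedralGroup.r 1) ∨
      (eps d = -1 ∧ d * DihedralGroup.r 1 * d⁻¹ = (DihedralGroup.r 1)⁻¹) := by decide
  rcases key a.2 with h | h
  · left
    refine ⟨h.1, ?_⟩
    ext1
    · simp [bt]
    · exact h.2
  · right
    refine ⟨h.1, ?_⟩
    ext1
    · simp [bt]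
    · exact h.2

theorem bt_pow (j : ℕ) : bt ^ j = (1, DihedralGroup.r (j : ZMod 5)) := by
  ext1
  · simp [bt]
  · simp [bt]

theorem mem_zpowers_of_snd (a : A) (h1 : a.1 = 1) (h : a.2 * DihedralGroup.r 1 = DihedralGroup.r 1 * a.2) :
    ∃ j : ℕ, j < 5 ∧ a = bt ^ j := by
  have key : ∀ d : D5, d * DihedralGroup.r 1 = DihedralGroup.r 1 * d →
      ∃ j : ℕ, j < 5 ∧ d = DihedralGroup.r (j : ZMod 5) := by
    intro d
    cases d with
    | r i =>
      intro _
      exact ⟨i.val, ZMod.val_lt i, by simp⟩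
    | sr i =>
      intro h
      revert h
      revert i
      decide
  obtain ⟨j, hj, hd⟩ := key a.2 h
  refine ⟨j, hj, ?_⟩
  rw [bt_pow]
  ext1
  · exact h1
  · exact hd

/-- an element commuting with everything that commutes with `bt` is a power of `bt`. -/
theorem mem_of_bicentral (a : A) (h : ∀ c : A, c * bt = bt * c → a * c = c * a) :
    ∃ j : ℕ, j < 5 ∧ a = bt ^ j := by
  apply mem_zpowers_of_snd
  · apply Aff.eq_one_of_central
    intro y
    have := h (y, 1) (by ext1 <;> simp [bt])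
    exact congrArg Prod.fst this
  · have := h bt rfl
    exact congrArg Prod.snd this

theorem eq_one_of_central (a : A) (h : ∀ c, a * c = c * a) : a = 1 := by
  ext1
  · apply Aff.eq_one_of_central
    intro y
    exact congrArg Prod.fst (h (y, 1))
  · have h1 : ∀ c : D5, a.2 * c = c * a.2 := fun c => congrArg Prod.snd (h (1, c))
    have key : ∀ d : D5, (∀ c : D5, d * c = c * d) → d = 1 := by decide
    exact key _ h1

/-- an element commuting with `bt` and `ta` has trivial second component -/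
theorem snd_eq_one (a : A) (h1 : a * bt = bt * a) (h2 : a * ta = ta * a) : a.2 = 1 := by
  have key : ∀ d : D5, d * DihedralGroup.r 1 = DihedralGroup.r 1 * d →
     d * DihedralGroup.sr 0 = DihedralGroup.sr 0 * d → d = 1 := by decide
  exact key _ (congrArg Prod.snd h1) (congrArg Prod.snd h2)

/-- commutators: the 11th power of a commutator is a power of `bt` -/
theorem comm_pow_eleven (a b : A) : ∃ j : ℕ, (a * b * a⁻¹ * b⁻¹) ^ 11 = bt ^ j := by
  have key : ∀ a b : D5, ∃ i : ZMod 5, a * b * a⁻¹ * b⁻¹ = DihedralGroup.r i := by decide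
  obtain ⟨i, hi⟩ := key a.2 b.2
  refine ⟨i.val * 11, ?_⟩
  rw [bt_pow]
  ext1
  · show (a.1 * b.1 * a.1⁻¹ * b.1⁻¹) ^ 11 = 1
    apply Aff.pow_eleven_of_k_one
    simp
  · show (a.2 * b.2 * a.2⁻¹ * b.2⁻¹) ^ 11 = _
    rw [hi]
    simp

/-- A normal subgroup containing an element with nontrivial first component contains the
translation. -/
theorem t_mem (I : Subgroup A) (hI : I.Normal) (a : A) (ha : a ∈ I) (h1 : a.1 ≠ 1) :
    ((Aff.t, 1) : A) ∈ I := by
  -- commutators `[a, (y,1)]`
  have hc : ∀ y : Aff, ((a.1 * y * a.1⁻¹ * y⁻¹, 1) : A) ∈ I := by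
    intro y
    have h2 : a * ((y, 1) * a⁻¹ * (y, 1)⁻¹) ∈ I :=
      I.mul_mem ha (hI.conj_mem _ (I.inv_mem ha) _)
    have h3 : a * ((y, 1) * a⁻¹ * (y, 1)⁻¹) = ((a.1 * y * a.1⁻¹ * y⁻¹, 1) : A) := by
      ext1
      · simp [mul_assoc]
      · simp
    rwa [h3] at h2
  have : ∃ b : ZMod 11, b ≠ 0 ∧ ((⟨1, b⟩, 1) : A) ∈ I := by
    by_cases hk : a.1.k = 1
    · refine ⟨-a.1.b, ?_, ?_⟩
      · intro hb
        apply h1
        ext
        · simp [hk]
        · simpa using hb
      · have := hc ⟨Aff.two, 0⟩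
        convert this using 2
        ext
        · simp
        · simp [hk, Aff.two]
          ring
    · refine ⟨a.1.k - 1, ?_, ?_⟩
      · intro hb
        apply hk
        ext
        simpa [sub_eq_zero] using hb
      · have := hc Aff.t
        convert this using 2
        ext
        · simp [Aff.t]
        · simp [Aff.t]
          ring
  obtain ⟨b, hb, hm⟩ := this
  have : Fact (Nat.Prime 11) := ⟨by norm_num⟩
  have h4 : ((⟨1, b⟩, 1) : A) ^ (b⁻¹).val ∈ I := I.pow_mem hm _
  convert h4 using 1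
  ext1
  · simp only [Prod.pow_fst]
    ext
    · simp [Aff.t, Aff.pow_k]
    · rw [Aff.pow_b_of_k_one _ rfl]
      simp [Aff.t, hb]
  · simp

/-- elements of order five commuting with the translation are powers of `bt` -/
theorem mem_of_commute_t (a : A) (h : a * (Aff.t, 1) = (Aff.t, 1) * a) (h5 : a ^ 5 = 1) :
    ∃ j : ℕ, j < 5 ∧ a = bt ^ j := by
  apply mem_zpowers_of_snd
  · apply Aff.eq_one_of_pow_five
    · exact Aff.k_eq_one_of_commute_t _ (congrArg Prod.fst h)
    · exact congrArg Prod.fst h5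
  · have key : ∀ d : D5, d ^ 5 = 1 → d * DihedralGroup.r 1 = DihedralGroup.r 1 * d := by decide
    exact key _ (congrArg Prod.snd h5)

end Pool.Agent.AutLC
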