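import Pool.Agent.AutLC.Final

set_option autoImplicit false

namespace Pool.Agent.AutLC

universe u

open scoped IsMulCommutative

variable {H : Type u} [Group H] (Φ : MulAut H ≃* A)

theorem sq_one5 : ∀ a : ZMod 5, a * a = 1 → a = 1 ∨ a = -1 := by decide

theorem aux5 : ∀ a' : ZMod 5, 0 = a' * 2 → a' = 0 := by decide

theorem aux6 : ∀ a : ZMod 5, ((4 : ℕ) : ZMod 5) * (a * 1) = -a := by decide

/-- a homomorphism to `ZMod 5`, in multiplicative form -/
def mulHom {G : Type*} [Group G] (f : G → ZMod 5) (hf : ∀ a b, f (a * b) = f a + f b) :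
    G →* Multiplicative (ZMod 5) :=
  MonoidHom.mk' (fun g => Multiplicative.ofAdd (f g)) (fun a b => by rw [hf]; rfl)

theorem f_zpow {G : Type*} [Group G] (f : G → ZMod 5) (hf : ∀ a b, f (a * b) = f a + f b)
    (g : G) (n : ℤ) : f (g ^ n) = n * f g := by
  have h := map_zpow (mulHom f hf) g n
  have h2 : f (g ^ n) = Multiplicative.toAdd ((mulHom f hf g) ^ n) := by
    rw [← h]; rfl
  rw [h2, toAdd_zpow, zsmul_eq_mul]
  rfl

theorem f_pow {G : Type*} [Group G] (f : G → ZMod 5) (hf : ∀ a b, f (a * b) = f a + f b)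
    (g : G) (n : ℕ) : f (g ^ n) = n * f g := by
  have := f_zpow f hf g n
  simpa using this

include Φ in
theorem case2 (hno : ∀ x, inn Φ x ≠ bt) : False := by
  have hp5 : Fact (Nat.Prime 5) := ⟨by norm_num⟩
  have h2 : ∀ g, (inn Φ g).2 = 1 := fun g =>
    snd_one_of_normal _ (range_normal Φ) (fun ⟨x, hx⟩ => hno x hx) _ ⟨g, rfl⟩
  obtain ⟨β, hβ1⟩ : ∃ β, Φ β = bt := ⟨Φ.symm bt, by simp⟩
  obtain ⟨τ, hτ1⟩ : ∃ τ, Φ τ = ta := ⟨Φ.symm ta, by simp⟩
  have hβ : ∀ g, inn Φ (β g) = inn Φ g := by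
    intro g
    rw [← inn_aut, hβ1]
    ext1
    · simp [bt]
    · show bt.2 * (inn Φ g).2 * (bt.2)⁻¹ = _
      rw [h2, mul_one, mul_inv_cancel]
  have hβ5 : β ^ 5 = 1 := by
    apply Φ.injective
    rw [map_pow, hβ1, bt_pow_five, map_one]
  obtain ⟨N5, Nj, g1, hg1⟩ := unit_concl Φ β hβ hβ1
  obtain ⟨s, hsdef⟩ : ∃ s, s = co (cc Φ β hβ 1 g1) := ⟨_, rfl⟩
  have hsc : ∀ g, s * g = g * s := by rw [hsdef]; exact co_comm _
  have hs5 : s ^ 5 = 1 := by
    rw [hsdef, ← co_nsmul, N5, co_zero]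
  have hs1 : s ≠ 1 := by
    intro h
    apply hg1
    apply co_inj
    rw [← hsdef, h, co_zero]
  -- nonabelian
  have hna : ∃ g, (inn Φ g).1 ≠ 1 := by
    by_contra hcon
    push Not at hcon
    have hab : ∀ a b : H, a * b = b * a := fun a b => inn_eq_one Φ (Prod.ext (hcon a) (h2 a)) b
    let ν : MulAut H :=
      { toFun := fun g => g⁻¹
        invFun := fun g => g⁻¹
        left_inv := fun g => inv_inv g
        right_inv := fun g => inv_inv g
        map_mul' := fun a b => by rw [mul_inv_rev, hab] }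
    have hν : ν = 1 := by
      apply Φ.injective
      rw [map_one]
      apply eq_one_of_central
      intro c
      have h3 : ν * Φ.symm c = Φ.symm c * ν := by
        ext g
        show ((Φ.symm c) g)⁻¹ = (Φ.symm c) g⁻¹
        rw [map_inv]
      have h4 := congrArg Φ h3
      rw [map_mul, map_mul, Φ.apply_symm_apply] at h4
      exact h4
    have h5 : s⁻¹ = s := congrArg (fun f : MulAut H => f s) hν
    apply hs1
    apply eq_one_of_sq hs5
    nth_rewrite 1 [← h5]
    exact inv_mul_cancel s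
  obtain ⟨g2, hg2⟩ := hna
  have ht := t_mem_range Φ g2 hg2
  -- the functional
  obtain ⟨f0, hf0, hf01⟩ : ∃ f0 : H → ZMod 5, (∀ a b, f0 (a * b) = f0 a + f0 b) ∧ f0 g1 = 1 := by
    let K : Subgroup (Subgroup.center H) := (powMonoidHom 5 : Subgroup.center H →* Subgroup.center H).ker
    have hK5 : ∀ x : K, x ^ 5 = 1 := fun x => Subtype.ext x.2
    have hmem : ∀ g, Additive.toMul (cc Φ β hβ 1 g) ∈ K := fun g => N5 g
    obtain ⟨φ, hφ, hφ1⟩ := exists_functional K hK5 ⟨Additive.toMul (cc Φ β hβ 1 g1), hmem g1⟩ (by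
      intro h
      apply hg1
      have := congrArg Subtype.val h
      exact this)
    refine ⟨fun g => φ ⟨Additive.toMul (cc Φ β hβ 1 g), hmem g⟩, ?_, hφ1⟩
    intro a b
    show φ ⟨Additive.toMul (cc Φ β hβ 1 (a * b)), hmem (a * b)⟩ =
      φ ⟨Additive.toMul (cc Φ β hβ 1 a), hmem a⟩ + φ ⟨Additive.toMul (cc Φ β hβ 1 b), hmem b⟩
    rw [← hφ]
    congr 1
    apply Subtype.ext
    exact cc_mul Φ β hβ 1 a b
  have hbsymm : Φ.symm bt = β := by rw [← hβ1]; simp
  have hcm : ∀ f : H → ZMod 5, (∀ a b, f (a * b) = f a + f b) →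
      ∃ j : ℕ, j < 5 ∧ ∀ g, pw s (f g) = (co (cc Φ β hβ 1 g)) ^ j := by
    intro f hf
    obtain ⟨j, hj, h⟩ := central_mem Φ ht s hsc hs5 f hf (f_eq_zero Φ s hsc hs5 f hf)
    refine ⟨j, hj, ?_⟩
    intro g
    have h3 := h g
    rw [hbsymm, cc_spec Φ β hβ, Nj, co_nsmul] at h3
    exact mul_left_cancel h3
  have hc1 : ∀ g, co (cc Φ β hβ 1 g) = pw s (f0 g) := by
    obtain ⟨j, hj, h⟩ := hcm f0 hf0
    have h3 := h g1
    rw [hf01, ← hsdef] at h3
    have h4 : pw s 1 = pw s (j : ZMod 5) := by rw [h3, pw_natCast hs5]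
    have h5 := pw_injective hs5 hs1 h4
    have h6 : j = 1 := by
      have h7 : ((1 : ℕ) : ZMod 5) = (j : ZMod 5) := by simpa using h5
      have h8 := (ZMod.natCast_eq_natCast_iff' 1 j 5).mp h7
      omega
    subst h6
    intro g
    have := h g
    rw [pow_one] at this
    exact this.symm
  have hF : ∀ f : H → ZMod 5, (∀ a b, f (a * b) = f a + f b) → ∃ a : ZMod 5, ∀ g, f g = a * f0 g := by
    intro f hf
    obtain ⟨j, hj, h⟩ := hcm f hf
    refine ⟨j, fun g => ?_⟩
    have h3 := h g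
    rw [hc1, pw_pow hs5] at h3
    exact pw_injective hs5 hs1 h3
  have hβspec : ∀ j : ℕ, ∀ g, (β ^ j) g = g * pw s (j * f0 g) := by
    intro j g
    rw [cc_spec Φ β hβ, Nj, co_nsmul, hc1, pw_pow hs5]
  -- τ
  obtain ⟨a, ha⟩ := hF (fun g => f0 (τ g)) (fun x y => by rw [map_mul, hf0])
  have hττ : ∀ g, τ (τ g) = g := by
    intro g
    have h3 : τ * τ = 1 := by
      apply Φ.injective
      rw [map_mul, hτ1, ta_sq, map_one]
    exact congrArg (fun f : MulAut H => f g) h3
  have haa : a * a = 1 := by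
    have h3 := ha (τ g1)
    have h4 := ha g1
    simp only [hττ] at h3 h4
    rw [h4, hf01, mul_one] at h3
    exact h3.symm
  have hτβ : ∀ g, τ (β g) = (β ^ 4) (τ g) := by
    intro g
    have h3 : τ * β = β ^ 4 * τ := by
      apply Φ.injective
      rw [map_mul, map_mul, map_pow, hτ1, hβ1]
      have h4 : bt ^ 4 = bt⁻¹ := by
        rw [eq_inv_iff_mul_eq_one, ← pow_succ, bt_pow_five]
      rw [h4, ← ta_bt]
      group
    exact congrArg (fun f : MulAut H => f g) h3
  have hτs : τ s = pw s (-a) := by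
    have h3 := hτβ g1
    have h4 := hβspec 1 g1
    have h5 : f0 (τ g1) = a * f0 g1 := ha g1
    rw [pow_one] at h4
    rw [h4, hβspec, h5, hf01, map_mul] at h3
    have h6 := mul_left_cancel h3
    have h7 : pw s (((1 : ℕ) : ZMod 5) * 1) = s := by
      simp [pw_one]
    rw [h7] at h6
    rw [h6]
    congr 1
    exact aux6 a
  -- the transfer
  obtain ⟨K, instK, ι, V, m, hinj, hmem, hV, h5m⟩ := exists_transfer Φ h2
  have he : ∃ e : ℤ, (e : ZMod 5) = a ∧ e * e = 1 := by
    rcases sq_one5 a haa with h | h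
    · exact ⟨1, by rw [h]; simp, by norm_num⟩
    · exact ⟨-1, by rw [h]; simp, by norm_num⟩
  obtain ⟨e, hea, hee⟩ := he
  let φ : H →* K := MonoidHom.mk' (fun g => V g * (V (τ g)) ^ (-e)) (by
    intro x y
    rw [map_mul, map_mul, map_mul, mul_zpow, mul_mul_mul_comm])
  have hφ : ∀ g, φ g = V g * (V (τ g)) ^ (-e) := fun g => rfl
  let b1 : H := g1 * (τ g1) ^ e
  have hφb1 : φ b1 = 1 := by
    rw [hφ]
    show V (g1 * (τ g1) ^ e) * (V (τ (g1 * (τ g1) ^ e))) ^ (-e) = 1
    rw [map_mul, map_mul, map_mul, map_zpow, map_zpow, map_zpow, hττ, mul_zpow, ← zpow_mul,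
      mul_neg, hee]
    rw [zpow_neg, zpow_neg, zpow_one]
    rw [mul_mul_mul_comm, mul_comm (V g1), mul_assoc, mul_comm (V g1)]
    have : V (τ g1) ^ e * (V g1)⁻¹ * (V g1 * (V (τ g1) ^ e)⁻¹) = 1 := by group
    rw [← this]
    simp only [mul_comm, mul_left_comm, mul_assoc]
  have hf0b1 : f0 b1 = 2 := by
    show f0 (g1 * (τ g1) ^ e) = 2
    rw [hf0, f_zpow f0 hf0, hea]
    have h5 : f0 (τ g1) = a * f0 g1 := ha g1
    rw [h5, hf01, mul_one, haa]
    exact one_add_one_eq_two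
  -- M is 5-divisible
  have hdiv5 : ∀ g : H, ∃ g' : H, φ g' ^ 5 = φ g := by
    intro g
    let Mr : Subgroup K := φ.range
    let P : Subgroup Mr := (powMonoidHom 5 : Mr →* Mr).range
    by_cases hP : φ.rangeRestrict g ∈ P
    · obtain ⟨⟨_, ⟨g', rfl⟩⟩, hx⟩ := hP
      refine ⟨g', ?_⟩
      exact congrArg Subtype.val hx
    · exfalso
      have h5K : ∀ x : Mr ⧸ P, x ^ 5 = 1 := by
        intro x
        induction x using QuotientGroup.induction_on with
        | H z =>
          rw [← QuotientGroup.mk_pow, QuotientGroup.eq_one_iff]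
          exact ⟨z, rfl⟩
      obtain ⟨lam, hlam, hlam1⟩ := exists_functional (Mr ⧸ P) h5K
        ((φ.rangeRestrict g : Mr) : Mr ⧸ P) (by
          intro h
          exact hP ((QuotientGroup.eq_one_iff _).mp h))
      obtain ⟨a', ha'⟩ := hF (fun h => lam ((φ.rangeRestrict h : Mr) : Mr ⧸ P)) (by
        intro x y
        rw [map_mul, QuotientGroup.mk_mul, hlam])
      have h3 := ha' b1
      have h4 : φ.rangeRestrict b1 = 1 := Subtype.ext hφb1
      have h6 : lam 1 = 0 := by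
        have := hlam 1 1
        rw [mul_one] at this
        simpa using this
      simp only [h4, QuotientGroup.mk_one, h6, hf0b1] at h3
      have h7 : a' = 0 := by
        exact aux5 a' h3
      have h8 := ha' g
      simp only [hlam1, h7, zero_mul] at h8
      exact absurd h8 one_ne_zero
  have hdiv5' : ∀ (n : ℕ) (g : H), ∃ g' : H, φ g' ^ (5 ^ n) = φ g := by
    intro n
    induction n with
    | zero => intro g; exact ⟨g, by simp⟩
    | succ n ih =>
      intro g
      obtain ⟨g', hg'⟩ := ih g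
      obtain ⟨g'', hg''⟩ := hdiv5 g'
      refine ⟨g'', ?_⟩
      rw [pow_succ', pow_mul, hg'', hg']
  -- W
  let W : Subgroup K :=
    { carrier := {w | (∃ g, φ g = w) ∧ ∃ k : ℕ, w ^ (5 ^ k) = 1}
      mul_mem' := by
        rintro x y ⟨⟨g, hg⟩, k, hk⟩ ⟨⟨g', hg'⟩, k', hk'⟩
        refine ⟨⟨g * g', by rw [map_mul, hg, hg']⟩, k + k', ?_⟩
        rw [mul_pow]
        have h3 : x ^ 5 ^ (k + k') = 1 := by rw [pow_add, pow_mul, hk, one_pow]
        have h4 : y ^ 5 ^ (k + k') = 1 := by rw [pow_add, mul_comm, pow_mul, hk', one_pow]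
        rw [h3, h4, one_mul]
      one_mem' := ⟨⟨1, map_one φ⟩, 0, by simp⟩
      inv_mem' := by
        rintro x ⟨⟨g, hg⟩, k, hk⟩
        exact ⟨⟨g⁻¹, by rw [map_inv, hg]⟩, k, by rw [inv_pow, hk, inv_one]⟩ }
  have hdivW : ∀ (n : ℕ), n ≠ 0 → ∀ w : W, ∃ v : W, v ^ n = w := by
    rintro n hn ⟨w, ⟨g, hg⟩, k, hk⟩
    obtain ⟨e', n', hn', rfl⟩ := Nat.exists_eq_pow_mul_and_not_dvd hn 5 (by norm_num)
    obtain ⟨g', hg'⟩ := hdiv5' e' g
    have hv1 : (φ g') ^ (5 ^ (e' + k)) = 1 := by rw [pow_add, pow_mul, hg', hg, hk]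
    have hcop : Nat.Coprime n' (5 ^ (e' + k)) := by
      apply Nat.Coprime.pow_right
      rw [Nat.coprime_comm, Nat.Prime.coprime_iff_not_dvd (by norm_num)]
      exact hn'
    have hcop2 : Nat.Coprime n' (orderOf (φ g')) :=
      Nat.Coprime.coprime_dvd_right (orderOf_dvd_of_pow_eq_one hv1) hcop
    obtain ⟨j, hj⟩ := exists_pow_eq_self_of_coprime hcop2
    refine ⟨⟨(φ g') ^ j, ⟨g' ^ j, map_pow φ g' j⟩, e' + k, ?_⟩, ?_⟩
    · rw [← pow_mul, mul_comm, pow_mul, hv1, one_pow]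
    · apply Subtype.ext
      show ((φ g') ^ j) ^ (5 ^ e' * n') = w
      have h3 : ((φ g') ^ j) ^ (5 ^ e' * n') = (((φ g') ^ n') ^ j) ^ (5 ^ e') := by
        rw [← pow_mul, ← pow_mul, ← pow_mul]
        congr 1
        ring
      rw [h3, hj, hg', hg]
  obtain ⟨ks, hks⟩ := hmem s hsc
  have hks5 : ks ^ 5 = 1 := by
    apply hinj
    rw [map_pow, hks, hs5, map_one]
  -- φ s
  have hφs : ι (φ s) = pw s (2 * m) := by
    rw [hφ, map_mul, map_zpow, hV s hsc, hτs, hV _ (pw_comm hsc _), pw_pow hs5]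
    rw [zpow_neg, ← pw_natCast hs5]
    have h3 : ∀ x : ZMod 5, (pw s x ^ e)⁻¹ = pw s (-(a * x)) := by
      intro x
      rw [pw_neg hs5]
      congr 1
      have h4 : ∀ n : ℤ, pw s x ^ n = pw s (n * x) := by
        intro n
        induction n with
        | zero => simp [pw_zero]
        | succ n ih =>
          rw [zpow_add_one, ih]
          nth_rewrite 2 [← one_mul x]
          rw [← pw_add hs5]
          congr 1
          push_cast
          ring
        | pred n ih =>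
          rw [zpow_sub_one, ih, ← pw_neg hs5, ← pw_add hs5]
          congr 1
          push_cast
          ring
      rw [h4, hea]
    rw [h3, ← pw_add hs5]
    congr 1
    have : (m : ZMod 5) + -(a * (m * -a)) = m + (a * a) * m := by ring
    rw [this, haa]
    ring
  have hm0 : (m : ZMod 5) ≠ 0 := by
    intro h
    exact h5m ((ZMod.natCast_eq_zero_iff m 5).mp h)
  have hksW : ks ∈ W := by
    refine ⟨⟨s ^ (((2 * m : ZMod 5)⁻¹).val), ?_⟩, 1, by rw [pow_one, hks5]⟩
    apply hinj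
    rw [map_pow, map_pow, hφs, hks, pw_pow hs5, ZMod.natCast_zmod_val,
      inv_mul_cancel₀ (mul_ne_zero two_ne_zero5 hm0), pw_one]
  apply final_part Φ K ι V m hinj hV h5m W hdivW (fun w => by
    obtain ⟨k, hk⟩ := w.2.2
    exact ⟨k, Subtype.ext hk⟩) ⟨ks, hksW⟩
  · intro h
    apply hs1
    have h3 : ks = 1 := congrArg Subtype.val h
    rw [← hks, h3, map_one]
  · apply Subtype.ext
    exact hks5

/-- No group has automorphism group isomorphic to `AGL(1,11) × D₅`. -/
theorem no_discrete : IsEmpty (MulAut H ≃* A) := by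
  constructor
  intro Φ
  by_cases h : ∃ x, inn Φ x = bt
  · obtain ⟨x, hx⟩ := h
    exact case1 Φ x hx
  · push Not at h
    exact case2 Φ h

end Pool.Agent.AutLC
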