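import Pool.Agent.AutLC.Case2b

set_option autoImplicit false

namespace Pool.Agent.AutLC

universe u

theorem two_ne_zero5 : (2 : ZMod 5) ≠ 0 := by decide

variable {H : Type u} [Group H] (Φ : MulAut H ≃* A)

include Φ in
theorem final_part (K : Type u) [CommGroup K] (ι : K →* H) (V : H →* K) (m : ℕ)
    (hinj : Function.Injective ι)
    (hV : ∀ z : H, (∀ g, z * g = g * z) → ι (V z) = z ^ m) (h5m : ¬ 5 ∣ m)
    (W : Subgroup K) (hdiv : ∀ (n : ℕ), n ≠ 0 → ∀ w : W, ∃ v : W, v ^ n = w)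
    (htor : ∀ w : W, ∃ k : ℕ, w ^ (5 ^ k) = 1)
    (s : W) (hs1 : s ≠ 1) (hs5 : s ^ 5 = 1) : False := by
  have : Fact (Nat.Prime 5) := ⟨by norm_num⟩
  obtain ⟨ρ, hρ⟩ := exists_retraction K W hdiv
  have hcen : ∀ w : W, ∀ g, ι w * g = g * ι w := by
    intro w
    obtain ⟨v, hv⟩ := hdiv 110 (by norm_num) w
    apply inn_eq_one Φ
    rw [← hv]
    have : inn Φ (ι (v ^ 110 : W)) = (inn Φ (ι v)) ^ 110 := by
      rw [← map_pow, ← map_pow]; rfl
    rw [this, A.pow_110]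
  have hVW : ∀ w : W, V (ι w) = (w : K) ^ m := by
    intro w
    apply hinj
    rw [hV _ (hcen w), map_pow]
  have hρV : ∀ w : W, ρ (V (ι w)) = w ^ m := by
    intro w
    rw [hVW, map_pow, hρ]
  have hm0 : (m : ZMod 5) ≠ 0 := by
    intro h
    exact h5m ((ZMod.natCast_eq_zero_iff m 5).mp h)
  obtain ⟨k, hk⟩ : ∃ k : ℕ, ((1 + m * k : ℕ) : ZMod 5) = 2 := by
    refine ⟨((m : ZMod 5)⁻¹).val, ?_⟩
    push_cast
    rw [ZMod.natCast_zmod_val, mul_inv_cancel₀ hm0]
    rfl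
  have hcop : Nat.Coprime (1 + m * k) 5 := by
    rw [Nat.coprime_comm, Nat.Prime.coprime_iff_not_dvd (by norm_num)]
    intro h
    have h0 : ((1 + m * k : ℕ) : ZMod 5) = 0 := (ZMod.natCast_eq_zero_iff _ 5).mpr h
    rw [hk] at h0
    exact two_ne_zero5 h0
  have hinjW : ∀ w : W, w ^ (1 + m * k) = 1 → w = 1 := by
    intro w hw
    obtain ⟨n, hn⟩ := htor w
    have h1 : orderOf w ∣ 1 + m * k := orderOf_dvd_of_pow_eq_one hw
    have h2 : orderOf w ∣ 5 ^ n := orderOf_dvd_of_pow_eq_one hn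
    have h3 : orderOf w = 1 := Nat.eq_one_of_dvd_coprimes (hcop.pow_right n) h1 h2
    exact orderOf_eq_one_iff.mp h3
  let θ : H →* H := MonoidHom.mk' (fun h => h * ι ((ρ (V h) ^ k : W))) (by
    intro a b
    have h1 : ρ (V (a * b)) ^ k = ρ (V a) ^ k * ρ (V b) ^ k := by
      rw [map_mul, map_mul, mul_pow]
    rw [h1]
    have h2 := hcen (ρ (V a) ^ k) b
    have h3 : ι ((ρ (V a) ^ k * ρ (V b) ^ k : W)) = ι (ρ (V a) ^ k : W) * ι (ρ (V b) ^ k : W) := by
      rw [← map_mul]; rfl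
    rw [h3]
    calc a * b * (ι (ρ (V a) ^ k : W) * ι (ρ (V b) ^ k : W))
        = a * (b * ι (ρ (V a) ^ k : W)) * ι (ρ (V b) ^ k : W) := by group
      _ = a * (ι (ρ (V a) ^ k : W) * b) * ι (ρ (V b) ^ k : W) := by rw [h2]
      _ = _ := by group)
  have hθ : ∀ h, θ h = h * ι ((ρ (V h) ^ k : W)) := fun h => rfl
  have hθW : ∀ w : W, θ (ι w) = ι ((w ^ (1 + m * k) : W)) := by
    intro w
    rw [hθ, hρV, ← pow_mul, pow_add, pow_one, ← map_mul]
    rfl
  have hbij : Function.Bijective θ := by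
    constructor
    · rw [injective_iff_map_eq_one]
      intro h hh
      have h1 : h = ι (((ρ (V h) ^ k)⁻¹ : W)) := by
        have h2 : h * ι ((ρ (V h) ^ k : W)) = 1 := hh
        have h3 := eq_inv_of_mul_eq_one_left h2
        rw [← map_inv] at h3
        exact h3
      rw [h1] at hh
      rw [hθW] at hh
      have h4 : (ρ (V h) ^ k)⁻¹ = 1 := by
        apply hinjW
        apply Subtype.ext
        apply hinj
        rw [hh]
        simp
      rw [h1, h4]
      simp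
    · intro h
      obtain ⟨w, hw⟩ := hdiv (1 + m * k) (by omega) ((ρ (V h) ^ k)⁻¹)
      refine ⟨h * ι w, ?_⟩
      rw [map_mul, hθW, hw, hθ, mul_assoc, ← map_mul]
      have : ((ρ (V h) ^ k : W) : K) * (((ρ (V h) ^ k)⁻¹ : W) : K) = 1 := by
        rw [← Subgroup.coe_mul, mul_inv_cancel]; rfl
      rw [this, map_one, mul_one]
  have hιs5 : (ι s) ^ 5 = 1 := by
    rw [← map_pow]
    have : ((s : K) ^ 5) = ((s ^ 5 : W) : K) := rfl
    rw [this, hs5]
    simp
  apply GL1 Φ (MulEquiv.ofBijective θ hbij) (ι s) hιs5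
  · intro h
    apply hs1
    apply Subtype.ext
    apply hinj
    rw [h]
    simp
  · show θ (ι s) = _
    rw [hθW]
    have h1 : s ^ (1 + m * k) = s ^ 2 := by
      have h2 : (1 + m * k) % 5 = 2 := by
        have := (ZMod.natCast_eq_natCast_iff' (1 + m * k) 2 5).mp (by rw [hk]; rfl)
        simpa using this
      rw [pow_eq_pow_mod _ hs5, h2]
    rw [h1, ← map_pow]
    rfl

end Pool.Agent.AutLC
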