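import Pool.Agent.AutLC.Compact

set_option autoImplicit false

namespace Pool.Agent.AutLC

theorem central_G (g : G) (h : ∀ g' : G, g * g' = g' * g) : g.1 = 1 := by
  apply E.eq_one_of_central
  intro y
  exact congrArg Prod.fst (h (y, 1))

theorem eq_one_of_pow_coprime {K : Type*} [Group K] (z : K) {m n : ℕ} (hc : Nat.Coprime m n)
    (h1 : z ^ m = 1) (h2 : z ^ n = 1) : z = 1 := by
  have h3 : orderOf z ∣ m := orderOf_dvd_of_pow_eq_one h1
  have h4 : orderOf z ∣ n := orderOf_dvd_of_pow_eq_one h2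
  exact orderOf_eq_one_iff.mp (Nat.eq_one_of_dvd_coprimes hc h3 h4)

theorem nat11 : ((11 : ℕ) : ZMod 11) = 0 := by decide

theorem aux7 : ((1 : ZMod 11) - 4) * 7 = 1 := by decide

theorem autG_surjective : Function.Surjective autG := by
  intro φ
  have hz := ζ_pow
  have hp11 : Fact (Nat.Prime 11) := ⟨by norm_num⟩
  -- the central circle is preserved
  have hcen : ∀ ψ : G ≃ₜ* G, ∀ t : Circle, (ψ (1, t)).1 = 1 := by
    intro ψ t
    apply central_G
    intro g'
    obtain ⟨g, rfl⟩ := ψ.surjective g'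
    rw [← map_mul, ← map_mul]
    congr 1
    ext1
    · simp
    · simp [mul_comm]
  let inc : Circle →* G := MonoidHom.inr E Circle
  let σ : Circle →* Circle := (MonoidHom.snd E Circle).comp ((φ : G →* G).comp inc)
  have hσ : ∀ t, φ (1, t) = (1, σ t) := by
    intro t
    ext1
    · exact hcen φ t
    · rfl
  have hσc : Continuous σ := by
    have h1 : Continuous fun t : Circle => (φ ((1 : E), t)).2 := by
      have h2 : Continuous fun t : Circle => ((1 : E), t) := by fun_prop
      exact continuous_snd.comp (φ.continuous.comp h2)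
    exact h1
  have hσi : Function.Injective σ := by
    intro t t' h
    have h1 : φ (1, t) = φ (1, t') := by rw [hσ, hσ, h]
    have h2 := φ.injective h1
    exact congrArg Prod.snd h2
  have hσpm := circle_aut σ hσc hσi
  have hσs : Function.Surjective σ := by
    intro t
    rcases hσpm with h | h
    · exact ⟨t, h t⟩
    · exact ⟨t⁻¹, by rw [h]; simp⟩
  -- the finite part
  let α : E →* E := (MonoidHom.fst E Circle).comp ((φ : G →* G).comp (MonoidHom.inl E Circle))
  let γ : E →* Circle := (MonoidHom.snd E Circle).comp ((φ : G →* G).comp (MonoidHom.inl E Circle))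
  have hαγ : ∀ e, φ (e, 1) = (α e, γ e) := fun e => rfl
  have hαi : Function.Injective α := by
    rw [injective_iff_map_eq_one]
    intro e he
    obtain ⟨t, ht⟩ := hσs (γ e)
    have h1 : φ (e, 1) = φ (1, t) := by rw [hαγ, hσ, he, ht]
    have h2 := φ.injective h1
    exact congrArg Prod.fst h2
  have hp11' : E.p ^ 11 = 1 := by
    rw [E.p_pow]
    ext
    · rfl
    · exact nat11
  have hq5 : E.q ^ 5 = 1 := by
    rw [E.q_pow]
    ext
    · show ((5 : ℕ) : ZMod 5) = 0
      decide
    · rfl
  -- image of p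
  have hPj : (α E.p).j = 0 := by
    have h1 : (α E.p) ^ 11 = 1 := by rw [← map_pow, hp11', map_one]
    have h2 := congrArg E.j h1
    rw [E.pow_j] at h2
    have h3 : ∀ j : ZMod 5, ((11 : ℕ) : ZMod 5) * j = 0 → j = 0 := by decide
    exact h3 _ h2
  have hPb : (α E.p).b ≠ 0 := by
    intro h
    have h1 : α E.p = 1 := by
      ext
      · exact hPj
      · exact h
    have h2 : E.p = 1 := hαi (by rw [h1, map_one])
    exact absurd (congrArg E.b h2) (by decide)
  have hrel : α E.q * α E.p = α E.p ^ 4 * α E.q := by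
    rw [← map_mul, E.rel, map_mul, map_pow]
  have hQj : (α E.q).j = 1 := by
    have h1 := congrArg E.b hrel
    rw [E.mul_b, E.mul_b, E.pow_b_of_j_zero _ hPj, E.pow_j, hPj, mul_zero, cj_zero, one_mul,
      add_comm] at h1
    have h2 := add_right_cancel h1
    have h3 := mul_right_cancel₀ hPb h2
    exact cj_eq_four _ (by rw [h3]; rfl)
  -- γ
  have hγp : γ E.p = 1 := by
    have h1 : γ E.q * γ E.p = γ E.p ^ 4 * γ E.q := by
      rw [← map_mul, E.rel, map_mul, map_pow]
    have h2 : γ E.p ^ 3 = 1 := by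
      have h3 : γ E.p ^ 4 * γ E.q = γ E.q * γ E.p * γ E.p ^ 3 := by
        rw [mul_assoc, ← pow_succ', mul_comm]
      rw [h3] at h1
      exact mul_eq_left.mp h1.symm
    have h4 : γ E.p ^ 11 = 1 := by rw [← map_pow, hp11', map_one]
    exact eq_one_of_pow_coprime _ (by norm_num) h2 h4
  obtain ⟨i, hi⟩ := root_eq (γ E.q) (by rw [← map_pow, hq5, map_one])
  -- the affine part
  let x : Aff := ⟨Units.mk0 (α E.p).b hPb, 7 * (α E.q).b⟩
  have hx : ∀ e, actE x e = α e := by
    let L : E →* E := MonoidHom.mk' (actE x) (actE_hom x)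
    have hL : ∀ e, actE x e = L e := fun e => rfl
    have hLp : L E.p = α E.p := by
      rw [← hL]
      ext
      · rw [hPj]; rfl
      · show (Units.mk0 (α E.p).b hPb : (ZMod 11)ˣ) * (1 : ZMod 11) + (1 - cj 0) * _ = _
        rw [cj_zero]
        simp
    have hLq : L E.q = α E.q := by
      rw [← hL]
      ext
      · rw [hQj]; rfl
      · show (Units.mk0 (α E.p).b hPb : (ZMod 11)ˣ) * (0 : ZMod 11) + (1 - cj 1) * (7 * (α E.q).b) = _
        rw [cj_one, mul_zero, zero_add, ← mul_assoc]
        rw [aux7, one_mul]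
    intro e
    rw [hL, E.eq_gen e, map_mul, map_mul, map_pow, map_pow, map_pow, map_pow, hLp, hLq]
  -- decomposition
  have hφ : ∀ g : G, φ g = (α g.1, γ g.1 * σ g.2) := by
    intro g
    have h1 : g = (g.1, 1) * (1, g.2) := by ext1 <;> simp
    conv_lhs => rw [h1]
    rw [map_mul, hαγ, hσ]
    ext1
    · simp
    · simp
  have hγ : ∀ e : E, γ e = pw ζ (e.j * i) := by
    intro e
    conv_lhs => rw [E.eq_gen e]
    rw [map_mul, map_pow, map_pow, hγp, one_pow, one_mul, hi, pw_pow hz]
    simp
  rcases hσpm with h | h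
  · refine ⟨(x, DihedralGroup.r i), ?_⟩
    ext1 g
    rw [autG_apply, hφ, h, hγ, ← hx]
    rfl
  · refine ⟨(x, DihedralGroup.sr (-i)), ?_⟩
    ext1 g
    rw [autG_apply, hφ, h, hγ, ← hx]
    show (actE x g.1, (pw ζ (g.1.j * (-i)) * g.2)⁻¹) = _
    rw [mul_neg, pw_neg hz, mul_inv, inv_inv]

noncomputable def eqv : A ≃ (G ≃ₜ* G) := Equiv.ofBijective autG ⟨autG_injective, autG_surjective⟩

end Pool.Agent.AutLC
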